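import Mathlib

/-!
# The amplitude function of a finite simple graph (definitions)

Vertices are `Fin n`; the set `S_G` of ordered adjacent pairs is Mathlib's type `G.Dart`
(a dart `d` has `d.fst = i`, `d.snd = j`, and `d.symm` is the reversed pair).
-/

namespace Pool.Agent.H238Z.Amp

/-- Euclidean three-space. -/
abbrev E3 : Type := EuclideanSpace ℝ (Fin 3)

/-- The first Pauli matrix. -/
def sigma1 : Matrix (Fin 2) (Fin 2) ℂ := !![0, 1; 1, 0]

/-- The second Pauli matrix. -/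
def sigma2 : Matrix (Fin 2) (Fin 2) ℂ := !![0, -Complex.I; Complex.I, 0]

/-- The third Pauli matrix. -/
def sigma3 : Matrix (Fin 2) (Fin 2) ℂ := !![1, 0; 0, -1]

/-- The Hermitian matrix `u · σ = u₁ σ₁ + u₂ σ₂ + u₃ σ₃`. -/
def pauli (u : E3) : Matrix (Fin 2) (Fin 2) ℂ :=
  (u 0 : ℂ) • sigma1 + (u 1 : ℂ) • sigma2 + (u 2 : ℂ) • sigma3

/-- The symplectic form `ω(a, b) = a₁ b₂ - a₂ b₁` on `ℂ²`. -/
def omega (a b : Fin 2 → ℂ) : ℂ := a 0 * b 1 - a 1 * b 0

/-- `x` lies in the configuration space `C_G(ℝ³)`: adjacent vertices go to distinct points. -/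
def Admissible {n : ℕ} (G : SimpleGraph (Fin n)) (x : Fin n → E3) : Prop :=
  ∀ i j, G.Adj i j → x i ≠ x j

/-- The unit vector `u_ij = (x_j - x_i) / ‖x_j - x_i‖` of the ordered edge `d = (i, j)`. -/
noncomputable def dir {n : ℕ} (G : SimpleGraph (Fin n)) (x : Fin n → E3) (d : G.Dart) : E3 :=
  ‖x d.snd - x d.fst‖⁻¹ • (x d.snd - x d.fst)

/-- `ψ` is a choice of spinors for `x`: each `ψ_ij` is a unit vector of `ℂ²` with
`(u_ij · σ) ψ_ij = ψ_ij`. -/
def IsSpinorChoice {n : ℕ} (G : SimpleGraph (Fin n)) (x : Fin n → E3)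
    (ψ : G.Dart → Fin 2 → ℂ) : Prop :=
  ∀ d : G.Dart, ‖ψ d 0‖ ^ 2 + ‖ψ d 1‖ ^ 2 = 1 ∧ (pauli (dir G x d)).mulVec (ψ d) = ψ d

/-- `Δ` contains exactly one of `(i, j)` and `(j, i)` for each edge. -/
def IsOrientation {n : ℕ} (G : SimpleGraph (Fin n)) (Δ : Finset G.Dart) : Prop :=
  ∀ d : G.Dart, d ∈ Δ ↔ d.symm ∉ Δ

open Classical in
/-- The group `P_G` of permutations of the ordered edges that preserve the first index,
as a finite set. -/
noncomputable def firstPerms {n : ℕ} (G : SimpleGraph (Fin n)) : Finset (Equiv.Perm G.Dart) :=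
  Finset.univ.filter fun σ => ∀ d : G.Dart, (σ d).fst = d.fst

/-- The numerator of the amplitude. -/
noncomputable def numer {n : ℕ} (G : SimpleGraph (Fin n)) (ψ : G.Dart → Fin 2 → ℂ)
    (Δ : Finset G.Dart) : ℂ :=
  ∑ σ ∈ firstPerms G, ∏ d ∈ Δ, omega (ψ (σ d)) (ψ (σ d.symm))

/-- The denominator of the amplitude. -/
noncomputable def denom {n : ℕ} (G : SimpleGraph (Fin n)) (ψ : G.Dart → Fin 2 → ℂ)
    (Δ : Finset G.Dart) : ℂ :=
  ∏ d ∈ Δ, omega (ψ d) (ψ d.symm)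

/-- The `G`-amplitude computed from the spinors `ψ` and the orientation `Δ`. -/
noncomputable def amplitude {n : ℕ} (G : SimpleGraph (Fin n)) (ψ : G.Dart → Fin 2 → ℂ)
    (Δ : Finset G.Dart) : ℂ :=
  numer G ψ Δ / denom G ψ Δ

end Pool.Agent.H238Z.Amp
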