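import Mathlib
import Pool.Agent.H238Z.AmpDefs

/-! General lemmas on the amplitude function. -/

namespace Pool.Agent.H238Z.Amp

open Finset

variable {n : ℕ} {G : SimpleGraph (Fin n)}

theorem omega_smul (c e : ℂ) (a b : Fin 2 → ℂ) :
    omega (c • a) (e • b) = (c * e) * omega a b := by
  simp only [omega, Pi.smul_apply, smul_eq_mul]; ring

theorem omega_swap (a b : Fin 2 → ℂ) : omega b a = - omega a b := by
  simp only [omega]; ring

open Classical in
theorem prod_orient {Δ : Finset G.Dart} (hΔ : IsOrientation G Δ) (c : G.Dart → ℂ) :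
    ∏ d ∈ Δ, (c d * c d.symm) = ∏ d, c d := by
  rw [Finset.prod_mul_distrib, ← Finset.prod_mul_prod_compl Δ c]
  congr 1
  refine Finset.prod_nbij' (fun d => d.symm) (fun d => d.symm) ?_ ?_ ?_ ?_ ?_
  · intro d hd
    simpa using (hΔ d).1 hd
  · intro d hd
    have h1 : d ∉ Δ := by simpa using hd
    have := (hΔ d.symm).2 (by simpa using h1)
    simpa using this
  · intro d _; simp
  · intro d _; simp
  · intro d _; rfl

open Classical in
theorem prod_orient_sign {Δ Δ' : Finset G.Dart} (hΔ : IsOrientation G Δ)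
    (hΔ' : IsOrientation G Δ') :
    ∃ s : ℂ, ∀ F : G.Dart → ℂ, (∀ d, F d.symm = - F d) →
      ∏ d ∈ Δ, F d = s * ∏ d ∈ Δ', F d := by
  refine ⟨∏ d ∈ Δ, (if d ∈ Δ' then 1 else -1), fun F hF => ?_⟩
  have h1 : ∏ d ∈ Δ', F d = ∏ d ∈ Δ, F (if d ∈ Δ' then d else d.symm) := by
    symm
    refine Finset.prod_nbij' (fun d => if d ∈ Δ' then d else d.symm)
      (fun d => if d ∈ Δ then d else d.symm) ?_ ?_ ?_ ?_ ?_
    · intro d _
      by_cases h : d ∈ Δ'
      · simp [h]
      · simp only [h, if_false]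
        exact (hΔ' d.symm).2 (by simpa using h)
    · intro d _
      by_cases h : d ∈ Δ
      · simp [h]
      · simp only [h, if_false]
        exact (hΔ d.symm).2 (by simpa using h)
    · intro d hd
      by_cases h : d ∈ Δ'
      · simp [h, hd]
      · have := (hΔ d).1 hd
        simp [h, this]
    · intro d hd
      by_cases h : d ∈ Δ
      · simp [h, hd]
      · have := (hΔ' d).1 hd
        simp [h, this]
    · intro d _; rfl
  rw [h1, ← Finset.prod_mul_distrib]
  refine Finset.prod_congr rfl fun d _ => ?_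
  by_cases h : d ∈ Δ'
  · simp [h]
  · simp [h, hF]

open Classical in
theorem numer_smul {Δ : Finset G.Dart} (hΔ : IsOrientation G Δ) (c : G.Dart → ℂ)
    (ψ : G.Dart → Fin 2 → ℂ) :
    numer G (fun d => c d • ψ d) Δ = (∏ d, c d) * numer G ψ Δ := by
  unfold numer
  rw [Finset.mul_sum]
  refine Finset.sum_congr rfl fun σ _ => ?_
  simp only [omega_smul]
  rw [Finset.prod_mul_distrib, prod_orient hΔ (fun d => c (σ d)), Equiv.prod_comp σ c]

open Classical in
theorem denom_smul {Δ : Finset G.Dart} (hΔ : IsOrientation G Δ) (c : G.Dart → ℂ)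
    (ψ : G.Dart → Fin 2 → ℂ) :
    denom G (fun d => c d • ψ d) Δ = (∏ d, c d) * denom G ψ Δ := by
  unfold denom
  simp only [omega_smul]
  rw [Finset.prod_mul_distrib, prod_orient hΔ c]

theorem numer_orient {Δ Δ' : Finset G.Dart} (hΔ : IsOrientation G Δ)
    (hΔ' : IsOrientation G Δ') (ψ : G.Dart → Fin 2 → ℂ) (h : numer G ψ Δ' = 0) :
    numer G ψ Δ = 0 := by
  obtain ⟨s, hs⟩ := prod_orient_sign hΔ hΔ'
  have : numer G ψ Δ = s * numer G ψ Δ' := by
    unfold numer
    rw [Finset.mul_sum]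
    refine Finset.sum_congr rfl fun σ _ => ?_
    refine hs (fun d => omega (ψ (σ d)) (ψ (σ d.symm))) fun d => ?_
    simp only [SimpleGraph.Dart.symm_symm]
    exact omega_swap _ _
  rw [this, h, mul_zero]

theorem mem_firstPerms {σ : Equiv.Perm G.Dart} :
    σ ∈ firstPerms G ↔ ∀ d : G.Dart, (σ d).fst = d.fst := by
  classical
  unfold firstPerms
  simp

theorem inv_mem_firstPerms {σ : Equiv.Perm G.Dart} (h : σ ∈ firstPerms G) :
    σ⁻¹ ∈ firstPerms G := by
  rw [mem_firstPerms] at h ⊢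
  intro d
  have := h (σ⁻¹ d)
  simpa using this.symm

theorem mul_mem_firstPerms {σ τ : Equiv.Perm G.Dart} (h : σ ∈ firstPerms G)
    (h' : τ ∈ firstPerms G) : σ * τ ∈ firstPerms G := by
  rw [mem_firstPerms] at h h' ⊢
  intro d
  rw [Equiv.Perm.mul_apply, h, h']

theorem swap_mem_firstPerms {a b : G.Dart} (h : a.fst = b.fst) :
    Equiv.swap a b ∈ firstPerms G := by
  rw [mem_firstPerms]
  intro d
  by_cases h1 : d = a
  · subst h1; simp [h]
  · by_cases h2 : d = b
    · subst h2; simp [h]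
    · rw [Equiv.swap_apply_of_ne_of_ne h1 h2]

theorem sum_mul_left (T : Equiv.Perm G.Dart → ℂ) {s : Equiv.Perm G.Dart}
    (hs : s ∈ firstPerms G) :
    ∑ σ ∈ firstPerms G, T (s * σ) = ∑ σ ∈ firstPerms G, T σ := by
  refine Finset.sum_nbij' (fun σ => s * σ) (fun σ => s⁻¹ * σ) ?_ ?_ ?_ ?_ ?_
  · intro σ hσ; exact mul_mem_firstPerms hs hσ
  · intro σ hσ; exact mul_mem_firstPerms (inv_mem_firstPerms hs) hσ
  · intro σ _; simp
  · intro σ _; simp
  · intro σ _; rfl

open Classical in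
/-- The darts leaving `v`. -/
noncomputable def out (G : SimpleGraph (Fin n)) (v : Fin n) : Finset G.Dart :=
  Finset.univ.filter fun d => d.fst = v

theorem mem_out {v : Fin n} {d : G.Dart} : d ∈ out G v ↔ d.fst = v := by
  classical
  unfold out
  simp

theorem sum_out_perm (H : G.Dart → ℂ) (v : Fin n) {σ : Equiv.Perm G.Dart}
    (hσ : σ ∈ firstPerms G) : ∑ a ∈ out G v, H (σ a) = ∑ a ∈ out G v, H a := by
  refine Finset.sum_equiv σ (fun a => ?_) (fun a _ => rfl)
  rw [mem_out, mem_out, mem_firstPerms.1 hσ]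

/-- Averaging: a sum over `P_G` of a function of two preimages vanishes if the double sum does. -/
theorem sum_two_eq_zero (dv dw : G.Dart) (hne : dv.fst ≠ dw.fst) (g : G.Dart → G.Dart → ℂ)
    (hg : ∑ a ∈ out G dv.fst, ∑ b ∈ out G dw.fst, g a b = 0) :
    ∑ σ ∈ firstPerms G, g (σ⁻¹ dv) (σ⁻¹ dw) = 0 := by
  set S := ∑ σ ∈ firstPerms G, g (σ⁻¹ dv) (σ⁻¹ dw) with hS
  have h1 : ∀ a ∈ out G dv.fst, ∀ b ∈ out G dw.fst,
      S = ∑ σ ∈ firstPerms G, g (σ⁻¹ a) (σ⁻¹ b) := by
    intro a ha b hb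
    rw [mem_out] at ha hb
    have hs : Equiv.swap dv a * Equiv.swap dw b ∈ firstPerms G :=
      mul_mem_firstPerms (swap_mem_firstPerms ha.symm) (swap_mem_firstPerms hb.symm)
    rw [hS, ← sum_mul_left (fun σ => g (σ⁻¹ dv) (σ⁻¹ dw)) hs]
    refine Finset.sum_congr rfl fun σ _ => ?_
    have e1 : a ≠ dw := fun h => hne (by rw [← ha, h])
    have e2 : a ≠ b := fun h => hne (by rw [← ha, h, hb])
    have e3 : dw ≠ dv := fun h => hne (by rw [h])
    have e4 : dw ≠ a := fun h => e1 h.symm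
    simp only [mul_inv_rev, Equiv.swap_inv, Equiv.Perm.mul_apply, Equiv.swap_apply_left,
      Equiv.swap_apply_of_ne_of_ne e1 e2, Equiv.swap_apply_of_ne_of_ne e3 e4]
  have h2 : ∑ a ∈ out G dv.fst, ∑ b ∈ out G dw.fst, S = 0 := by
    rw [Finset.sum_congr rfl fun a ha => Finset.sum_congr rfl fun b hb => h1 a ha b hb]
    have : ∀ a ∈ out G dv.fst, ∑ b ∈ out G dw.fst, ∑ σ ∈ firstPerms G, g (σ⁻¹ a) (σ⁻¹ b)
        = ∑ σ ∈ firstPerms G, ∑ b ∈ out G dw.fst, g (σ⁻¹ a) (σ⁻¹ b) :=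
      fun a _ => Finset.sum_comm
    rw [Finset.sum_congr rfl this, Finset.sum_comm]
    refine Finset.sum_eq_zero fun σ hσ => ?_
    have hσ' := inv_mem_firstPerms hσ
    rw [sum_out_perm (fun a => ∑ b ∈ out G dw.fst, g a (σ⁻¹ b)) _ hσ', ← hg]
    exact Finset.sum_congr rfl fun a _ => sum_out_perm (fun b => g a b) _ hσ'
  have h3 : (out G dv.fst).card ≠ 0 :=
    Finset.card_ne_zero.2 ⟨dv, mem_out.2 rfl⟩
  have h4 : (out G dw.fst).card ≠ 0 :=
    Finset.card_ne_zero.2 ⟨dw, mem_out.2 rfl⟩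
  simp only [Finset.sum_const, nsmul_eq_mul, mul_eq_zero, Nat.cast_eq_zero] at h2
  tauto

end Pool.Agent.H238Z.Amp
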