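import Mathlib
import Pool.Agent.H238Z.AmpGen

/-! The double star with five leaves at each centre: a zero of the amplitude. -/

namespace Pool.Agent.H238Z.Amp

open Finset

/-- Parent of a vertex: `1, ..., 6` hang on `0`, and `7, ..., 11` hang on `1`. -/
def par (i : Fin 12) : Fin 12 := if i ≤ 6 then 0 else 1

/-- Adjacency of the double star. -/
def adjB (i j : Fin 12) : Prop := (i ≠ 0 ∧ j = par i) ∨ (j ≠ 0 ∧ i = par j)

instance : DecidableRel adjB := fun i j => by unfold adjB; infer_instance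

/-- The double star. -/
def DS : SimpleGraph (Fin 12) where
  Adj := adjB
  symm := ⟨fun _ _ h => h.symm⟩
  loopless := ⟨by decide⟩

instance : DecidableRel DS.Adj := fun i j => inferInstanceAs (Decidable (adjB i j))

theorem DS_isTree : DS.IsTree := by
  rw [SimpleGraph.isTree_iff_connected_and_card]
  constructor
  · have h0 : ∀ i : Fin 12, DS.Reachable 0 i := by
      intro i
      have h1 : DS.Adj 0 1 := by decide
      have : i = 0 ∨ DS.Adj 0 i ∨ DS.Adj 1 i := by revert i; decide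
      rcases this with h | h | h
      · rw [h]
      · exact h.reachable
      · exact h1.reachable.trans h.reachable
    exact ⟨fun a b => (h0 a).symm.trans (h0 b)⟩
  · have : DS.edgeFinset.card = 11 := by decide +kernel
    rw [Nat.card_eq_fintype_card, Nat.card_eq_fintype_card, ← SimpleGraph.edgeFinset_card, this]
    rfl

/-- First coordinates. -/
def X0 (i : Fin 12) : ℤ := if i ≤ 1 then 0 else if i ≤ 6 then 4 * ((i : ℤ) - 1) else 4 * ((i : ℤ) - 6)

/-- Third coordinates. -/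
def X2 (i : Fin 12) : ℤ :=
  if i = 0 then 0 else if i = 1 then 1 else if i ≤ 6 then -3 * ((i : ℤ) - 1)
  else 1 + 3 * ((i : ℤ) - 6)

/-- Edge lengths. -/
def LL (i j : Fin 12) : ℤ :=
  if max i j = 1 then 1 else if max i j ≤ 6 then 5 * (((max i j : Fin 12) : ℤ) - 1)
  else 5 * (((max i j : Fin 12) : ℤ) - 6)

/-- The configuration. -/
noncomputable def xx (i : Fin 12) : E3 := !₂[(X0 i : ℝ), 0, (X2 i : ℝ)]

/-- Integer spinors, with the special spinor at `0` in slot `a` and that at `1` in slot `b`. -/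
def Q (a b i j : Fin 12) : ℤ × ℤ :=
  if i = 0 then (if j = a then (1, 0) else (1, 2))
  else if i = 1 then (if j = b then (0, 1) else (2, 1))
  else if i ≤ 6 then (2, -1) else (1, -2)

/-- Complex vector of an integer pair. -/
def vec (p : ℤ × ℤ) : Fin 2 → ℂ := ![(p.1 : ℂ), (p.2 : ℂ)]

/-- Integer symplectic form. -/
def omZ (p q : ℤ × ℤ) : ℤ := p.1 * q.2 - p.2 * q.1

theorem omega_vec (p q : ℤ × ℤ) : omega (vec p) (vec q) = (omZ p q : ℂ) := by
  simp [omega, vec, omZ]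

/-- Reference spinors. -/
def psi0 (d : DS.Dart) : Fin 2 → ℂ := vec (Q 1 0 d.fst d.snd)

/-- One term of the numerator. -/
def gZ (a b : Fin 12) : ℤ :=
  ∏ i ∈ (univ : Finset (Fin 12)).filter (fun i => i ≠ 0), omZ (Q a b (par i) i) (Q a b i (par i))

theorem sum_gZ : ∑ a ∈ (univ : Finset (Fin 12)).filter (fun a => adjB 0 a),
    ∑ b ∈ (univ : Finset (Fin 12)).filter (fun b => adjB 1 b), gZ a b = 0 := by
  decide +kernel

theorem geom : ∀ i j : Fin 12, adjB i j → 0 < LL i j ∧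
    (X0 j - X0 i) ^ 2 + (X2 j - X2 i) ^ 2 = LL i j ^ 2 ∧
    (X2 j - X2 i) * (Q 1 0 i j).1 + (X0 j - X0 i) * (Q 1 0 i j).2 = LL i j * (Q 1 0 i j).1 ∧
    (X0 j - X0 i) * (Q 1 0 i j).1 - (X2 j - X2 i) * (Q 1 0 i j).2 = LL i j * (Q 1 0 i j).2 ∧
    0 < (Q 1 0 i j).1 ^ 2 + (Q 1 0 i j).2 ^ 2 ∧ omZ (Q 1 0 i j) (Q 1 0 j i) ≠ 0 := by
  decide +kernel

theorem xx_injective : Function.Injective xx := by
  have key : ∀ i j : Fin 12, X0 i = X0 j → X2 i = X2 j → i = j := by decide +kernel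
  intro i j h
  have h0 := congrArg (fun v : E3 => v 0) h
  have h2 := congrArg (fun v : E3 => v 2) h
  have h0' : (X0 i : ℝ) = X0 j := by simpa [xx] using h0
  have h2' : (X2 i : ℝ) = X2 j := by simpa [xx] using h2
  exact key i j (by exact_mod_cast h0') (by exact_mod_cast h2')

/-- The reference orientation. -/
noncomputable def D0 : Finset DS.Dart := univ.filter fun d => d.fst < d.snd

theorem D0_orient : IsOrientation DS D0 := by
  intro d
  have := d.fst_ne_snd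
  simp only [D0, mem_filter, mem_univ, true_and, SimpleGraph.Dart.symm, Prod.fst_swap,
    Prod.snd_swap, not_lt]
  exact ⟨fun h => h.le, fun h => lt_of_le_of_ne h this⟩

theorem prod_D0 (F : Fin 12 → Fin 12 → ℂ) :
    ∏ d ∈ D0, F d.fst d.snd = ∏ i ∈ (univ : Finset (Fin 12)).filter (fun i => i ≠ 0),
      F (par i) i := by
  have key : ∀ i j : Fin 12, adjB i j → i < j → j ≠ 0 ∧ i = par j := by decide +kernel
  have key2 : ∀ j : Fin 12, j ≠ 0 → adjB (par j) j ∧ par j < j := by decide +kernel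
  refine Finset.prod_bij (fun d _ => d.snd) ?_ ?_ ?_ ?_
  · intro d hd
    have := key _ _ d.adj (by simpa [D0] using hd)
    simpa using this.1
  · intro d hd d' hd' h
    have h1 := key _ _ d.adj (by simpa [D0] using hd)
    have h2 := key _ _ d'.adj (by simpa [D0] using hd')
    apply SimpleGraph.Dart.ext
    apply Prod.ext
    · rw [h1.2, h2.2, h]
    · exact h
  · intro j hj
    have := key2 j (by simpa using hj)
    exact ⟨⟨(par j, j), this.1⟩, by simpa [D0] using this.2, rfl⟩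
  · intro d hd
    have h1 := key _ _ d.adj (by simpa [D0] using hd)
    rw [← h1.2]

theorem sum_out_snd (v : Fin 12) (H : Fin 12 → ℂ) :
    ∑ a ∈ out DS v, H a.snd = ∑ a ∈ (univ : Finset (Fin 12)).filter (fun a => adjB v a), H a := by
  refine Finset.sum_bij (fun d _ => d.snd) ?_ ?_ ?_ ?_
  · intro d hd
    rw [mem_out] at hd
    have := d.adj
    rw [hd] at this
    exact Finset.mem_filter.2 ⟨Finset.mem_univ _, this⟩
  · intro d hd d' hd' h
    rw [mem_out] at hd hd'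
    apply SimpleGraph.Dart.ext
    exact Prod.ext (hd.trans hd'.symm) h
  · intro j hj
    have hj' : adjB v j := by simpa using hj
    exact ⟨⟨(v, j), hj'⟩, mem_out.2 rfl, rfl⟩
  · intro d _; rfl

/-- The dart from `0` to `1`. -/
def dv : DS.Dart := ⟨(0, 1), by decide⟩

/-- The dart from `1` to `0`. -/
def dw : DS.Dart := ⟨(1, 0), by decide⟩

theorem psi0_perm {σ : Equiv.Perm DS.Dart} (hσ : σ ∈ firstPerms DS) (d : DS.Dart) :
    psi0 (σ d) = vec (Q (σ⁻¹ dv).snd (σ⁻¹ dw).snd d.fst d.snd) := by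
  have h1 := mem_firstPerms.1 hσ
  have h2 := mem_firstPerms.1 (inv_mem_firstPerms hσ)
  have key : ∀ e : DS.Dart, d.fst = e.fst → ((σ d).snd = e.snd ↔ d.snd = (σ⁻¹ e).snd) := by
    intro e he
    constructor
    · intro h
      have : σ d = e := SimpleGraph.Dart.ext _ _ (Prod.ext ((h1 d).trans he) h)
      rw [← this]; simp
    · intro h
      have : d = σ⁻¹ e := SimpleGraph.Dart.ext _ _ (Prod.ext (he.trans (h2 e).symm) h)
      rw [this]; simp
  unfold psi0
  congr 1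
  unfold Q
  rw [h1 d]
  by_cases h0 : d.fst = 0
  · have := key dv h0
    simp only [h0, if_true]
    exact if_congr this rfl rfl
  · by_cases h0' : d.fst = 1
    · have := key dw h0'
      rw [if_neg h0, if_neg h0, if_pos h0', if_pos h0']
      exact if_congr this rfl rfl
    · simp only [h0, h0', if_false]

theorem numer_psi0 : numer DS psi0 D0 = 0 := by
  unfold numer
  have h := sum_two_eq_zero dv dw (by decide) (fun a b => (gZ a.snd b.snd : ℂ)) (by
    have : ∀ a ∈ out DS dv.fst, ∑ b ∈ out DS dw.fst, (gZ a.snd b.snd : ℂ)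
        = ∑ b ∈ (univ : Finset (Fin 12)).filter (fun b => adjB 1 b), (gZ a.snd b : ℂ) :=
      fun a _ => sum_out_snd 1 (fun b => (gZ a.snd b : ℂ))
    rw [Finset.sum_congr rfl this]
    have h2 := sum_out_snd 0
      (fun a => ∑ b ∈ (univ : Finset (Fin 12)).filter (fun b => adjB 1 b), (gZ a b : ℂ))
    have h3 := congrArg (fun z : ℤ => (z : ℂ)) sum_gZ
    push_cast at h3
    exact h2.trans h3)
  rw [← h]
  refine Finset.sum_congr rfl fun σ hσ => ?_
  simp only [psi0_perm hσ, omega_vec]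
  have := prod_D0 (fun i j => (omZ (Q (σ⁻¹ dv).snd (σ⁻¹ dw).snd i j)
    (Q (σ⁻¹ dv).snd (σ⁻¹ dw).snd j i) : ℂ))
  unfold gZ
  push_cast
  exact this

theorem denom_psi0 (Δ : Finset DS.Dart) : denom DS psi0 Δ ≠ 0 := by
  unfold denom
  rw [Finset.prod_ne_zero_iff]
  intro d _
  unfold psi0
  rw [omega_vec]
  exact_mod_cast (geom _ _ d.adj).2.2.2.2.2

theorem norm_xx (d : DS.Dart) : ‖xx d.snd - xx d.fst‖ = (LL d.fst d.snd : ℝ) := by
  obtain ⟨h1, h2, -⟩ := geom _ _ d.adj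
  rw [EuclideanSpace.norm_eq, Real.sqrt_eq_iff_mul_self_eq (by positivity) (by exact_mod_cast h1.le)]
  have h2' : ((X0 d.snd : ℝ) - X0 d.fst) ^ 2 + ((X2 d.snd : ℝ) - X2 d.fst) ^ 2
      = (LL d.fst d.snd : ℝ) ^ 2 := by exact_mod_cast h2
  simp only [Fin.sum_univ_three, xx, PiLp.sub_apply, Real.norm_eq_abs, sq_abs]
  simp
  linarith

theorem pauli_dir (d : DS.Dart) (v : Fin 2 → ℂ) :
    (pauli (dir DS xx d)).mulVec v = v ↔
      ((X2 d.snd : ℂ) - X2 d.fst) * v 0 + ((X0 d.snd : ℂ) - X0 d.fst) * v 1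
        = (LL d.fst d.snd : ℂ) * v 0 ∧
      ((X0 d.snd : ℂ) - X0 d.fst) * v 0 - ((X2 d.snd : ℂ) - X2 d.fst) * v 1
        = (LL d.fst d.snd : ℂ) * v 1 := by
  have hL : (LL d.fst d.snd : ℂ) ≠ 0 := by exact_mod_cast (geom _ _ d.adj).1.ne'
  have e0 : ((dir DS xx d 0 : ℝ) : ℂ) = ((X0 d.snd : ℂ) - X0 d.fst) / (LL d.fst d.snd : ℂ) := by
    unfold dir; rw [norm_xx]; simp [xx]; ring
  have e1 : ((dir DS xx d 1 : ℝ) : ℂ) = 0 := by
    simp [dir, xx]
  have e2 : ((dir DS xx d 2 : ℝ) : ℂ) = ((X2 d.snd : ℂ) - X2 d.fst) / (LL d.fst d.snd : ℂ) := by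
    unfold dir; rw [norm_xx]; simp [xx]; ring
  rw [funext_iff, Fin.forall_fin_two]
  simp only [pauli, e0, e1, e2, sigma1, sigma2, sigma3, Matrix.mulVec, dotProduct,
    Fin.sum_univ_two]
  simp
  constructor
  · rintro ⟨h1, h2⟩
    field_simp at h1 h2
    constructor
    · linear_combination h1
    · linear_combination h2
  · rintro ⟨h1, h2⟩
    constructor
    · field_simp; linear_combination h1
    · field_simp; linear_combination h2

theorem psi0_eigen (d : DS.Dart) :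
      ((X2 d.snd : ℂ) - X2 d.fst) * (Q 1 0 d.fst d.snd).1
        + ((X0 d.snd : ℂ) - X0 d.fst) * (Q 1 0 d.fst d.snd).2
        = (LL d.fst d.snd : ℂ) * (Q 1 0 d.fst d.snd).1 ∧
      ((X0 d.snd : ℂ) - X0 d.fst) * (Q 1 0 d.fst d.snd).1
        - ((X2 d.snd : ℂ) - X2 d.fst) * (Q 1 0 d.fst d.snd).2
        = (LL d.fst d.snd : ℂ) * (Q 1 0 d.fst d.snd).2 := by
  obtain ⟨-, -, h3, h4, -⟩ := geom _ _ d.adj
  exact ⟨by exact_mod_cast h3, by exact_mod_cast h4⟩

theorem spinor_eq {ψ : DS.Dart → Fin 2 → ℂ} (h : IsSpinorChoice DS xx ψ) :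
    ∃ c : DS.Dart → ℂ, (∀ d, c d ≠ 0) ∧ ψ = fun d => c d • psi0 d := by
  have key : ∀ d : DS.Dart, ∃ c : ℂ, c ≠ 0 ∧ ψ d = c • psi0 d := by
    intro d
    obtain ⟨hn, he⟩ := h d
    obtain ⟨e1, e2⟩ := (pauli_dir d _).1 he
    obtain ⟨f1, f2⟩ := psi0_eigen d
    obtain ⟨hL, -, -, -, hpq, -⟩ := geom _ _ d.adj
    have hL' : (LL d.fst d.snd : ℂ) ≠ 0 := by exact_mod_cast hL.ne'
    have hpq' : ((Q 1 0 d.fst d.snd).1 : ℂ) ^ 2 + ((Q 1 0 d.fst d.snd).2 : ℂ) ^ 2 ≠ 0 := by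
      exact_mod_cast hpq.ne'
    set p : ℂ := ((Q 1 0 d.fst d.snd).1 : ℂ) with hp
    set q : ℂ := ((Q 1 0 d.fst d.snd).2 : ℂ) with hq
    set z : ℂ := (X2 d.snd : ℂ) - X2 d.fst
    set x : ℂ := (X0 d.snd : ℂ) - X0 d.fst
    set L : ℂ := (LL d.fst d.snd : ℂ)
    have hw : ψ d 0 * q = ψ d 1 * p := by
      have : L * 2 * (ψ d 0 * q - ψ d 1 * p) = 0 := by
        linear_combination -(q * e1 - p * e2 + ψ d 0 * f2 - ψ d 1 * f1)
      simp only [mul_eq_zero, hL', false_or, OfNat.ofNat_ne_zero] at this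
      linear_combination this
    have hv : ψ d = ((ψ d 0 * p + ψ d 1 * q) / (p ^ 2 + q ^ 2)) • psi0 d := by
      rw [funext_iff, Fin.forall_fin_two]
      simp only [psi0, vec, Pi.smul_apply, smul_eq_mul, Matrix.cons_val_zero, Matrix.cons_val_one,
        ← hp, ← hq]
      constructor
      · field_simp; linear_combination q * hw
      · field_simp; linear_combination (-p) * hw
    refine ⟨_, ?_, hv⟩
    intro h0
    rw [h0, zero_smul] at hv
    rw [hv] at hn
    simp at hn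
  choose c hc hc' using key
  exact ⟨c, hc, funext hc'⟩

theorem exists_spinor : ∃ ψ, IsSpinorChoice DS xx ψ := by
  refine ⟨fun d => ((Real.sqrt (((Q 1 0 d.fst d.snd).1 : ℝ) ^ 2
    + ((Q 1 0 d.fst d.snd).2 : ℝ) ^ 2))⁻¹ : ℝ) • psi0 d, fun d => ⟨?_, ?_⟩⟩
  · obtain ⟨-, -, -, -, hpq, -⟩ := geom _ _ d.adj
    have hpq' : (0 : ℝ) < ((Q 1 0 d.fst d.snd).1 : ℝ) ^ 2 + ((Q 1 0 d.fst d.snd).2 : ℝ) ^ 2 := by
      exact_mod_cast hpq
    simp only [psi0, vec, Pi.smul_apply, Matrix.cons_val_zero, Matrix.cons_val_one, norm_smul,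
      mul_pow, Real.norm_eq_abs, sq_abs, inv_pow, Real.sq_sqrt hpq'.le, Complex.norm_intCast]
    field_simp
  · rw [pauli_dir]
    obtain ⟨f1, f2⟩ := psi0_eigen d
    simp only [psi0, vec, Pi.smul_apply, Matrix.cons_val_zero, Matrix.cons_val_one,
      Complex.real_smul]
    constructor
    · linear_combination (((Real.sqrt (((Q 1 0 d.fst d.snd).1 : ℝ) ^ 2
        + ((Q 1 0 d.fst d.snd).2 : ℝ) ^ 2))⁻¹ : ℝ) : ℂ) * f1
    · linear_combination (((Real.sqrt (((Q 1 0 d.fst d.snd).1 : ℝ) ^ 2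
        + ((Q 1 0 d.fst d.snd).2 : ℝ) ^ 2))⁻¹ : ℝ) : ℂ) * f2

/-- The double star on twelve distinct points has amplitude zero. -/
theorem main : DS.IsTree ∧ Function.Injective xx ∧ Admissible DS xx ∧
    (∃ ψ Δ, IsSpinorChoice DS xx ψ ∧ IsOrientation DS Δ) ∧
    ∀ ψ Δ, IsSpinorChoice DS xx ψ → IsOrientation DS Δ →
      denom DS ψ Δ ≠ 0 ∧ amplitude DS ψ Δ = 0 := by
  refine ⟨DS_isTree, xx_injective, fun i j h e => h.ne (xx_injective e), ?_, ?_⟩
  · obtain ⟨ψ, h⟩ := exists_spinor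
    exact ⟨ψ, D0, h, D0_orient⟩
  · intro ψ Δ hψ hΔ
    obtain ⟨c, hc, rfl⟩ := spinor_eq hψ
    constructor
    · rw [denom_smul hΔ]
      exact mul_ne_zero (Finset.prod_ne_zero_iff.2 fun d _ => hc d) (denom_psi0 Δ)
    · unfold amplitude
      rw [numer_smul hΔ, numer_orient hΔ D0_orient psi0 numer_psi0]
      simp

end Pool.Agent.H238Z.Amp
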