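import Pool.Agent.ER.Defs

/-!
# Decision problems on rational 3-tensors: definitions

An instance is a triple `(d, T, σ)`: the size `d`, the tensor `T` as a nested list of rationals
(`T[i][j][k] = t_ijk`), and a rational number `σ`.
-/

namespace Pool.Agent.H238Z.Tens

/-- Instances `(d, T, σ)`. -/
abbrev Inst : Type := ℕ × List (List (List ℚ)) × ℚ

/-- The entry `t_ijk` of a tensor given as a nested list. -/
def entry (T : List (List (List ℚ))) (i j k : ℕ) : ℚ := ((T.getD i []).getD j []).getD k 0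

/-- The nested list `T` has format `d × d × d`. -/
def IsCube (d : ℕ) (T : List (List (List ℚ))) : Prop :=
  T.length = d ∧ ∀ M ∈ T, M.length = d ∧ ∀ r ∈ M, r.length = d

/-- Well-formed instances: `T` has format `d × d × d` and `σ > 0`. -/
def Valid (I : Inst) : Prop := IsCube I.1 I.2.1 ∧ 0 < I.2.2

/-- The trilinear form `T(x, y, z) = ∑ t_ijk x_i y_j z_k` on `ℝ^d`. -/
noncomputable def tri (d : ℕ) (T : List (List (List ℚ))) (x y z : EuclideanSpace ℝ (Fin d)) : ℝ :=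
  ∑ i : Fin d, ∑ j : Fin d, ∑ k : Fin d, (entry T i j k : ℝ) * x i * y j * z k

/-- The spectral norm: the supremum of `|T(x, y, z)|` over Euclidean unit vectors `x, y, z`. -/
noncomputable def specNorm (d : ℕ) (T : List (List (List ℚ))) : ℝ :=
  sSup {r : ℝ | ∃ x y z : EuclideanSpace ℝ (Fin d),
    ‖x‖ = 1 ∧ ‖y‖ = 1 ∧ ‖z‖ = 1 ∧ r = |tri d T x y z|}

/-- SPECTRAL-NORM-BOUND: a well-formed instance with `‖T‖ ≤ σ`. -/
def NormBound (I : Inst) : Prop := Valid I ∧ specNorm I.1 I.2.1 ≤ (I.2.2 : ℝ)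

/-- SPECTRAL-NORM-EXCEED: a well-formed instance with `‖T‖ > σ`. -/
def NormExceed (I : Inst) : Prop := Valid I ∧ (I.2.2 : ℝ) < specNorm I.1 I.2.1

/-- `σ` is a singular value of `T`. -/
def IsSingularValue (d : ℕ) (T : List (List (List ℚ))) (σ : ℝ) : Prop :=
  ∃ x y z : EuclideanSpace ℝ (Fin d), ‖x‖ = 1 ∧ ‖y‖ = 1 ∧ ‖z‖ = 1 ∧
    (∀ i : Fin d, ∑ j : Fin d, ∑ k : Fin d, (entry T i j k : ℝ) * y j * z k = σ * x i) ∧
    (∀ j : Fin d, ∑ i : Fin d, ∑ k : Fin d, (entry T i j k : ℝ) * x i * z k = σ * y j) ∧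
    (∀ k : Fin d, ∑ i : Fin d, ∑ j : Fin d, (entry T i j k : ℝ) * x i * y j = σ * z k)

/-- Tensor Singular Value: a well-formed instance such that `σ` is a singular value of `T`. -/
def TSV (I : Inst) : Prop := Valid I ∧ IsSingularValue I.1 I.2.1 (I.2.2 : ℝ)

end Pool.Agent.H238Z.Tens
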