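import Pool.Agent.H238Z.TensMath

/-! Sparse quadratic forms, the Lagrange identity and the tensor of a list of slices. -/

namespace Pool.Agent.H238Z.Tens

open Finset

/-- Sparse quadratic forms: lists of monomials `c u_a u_b`. -/
abbrev Form : Type := List (ℕ × ℕ × ℤ)

/-- Value of a form. -/
def evalF (l : Form) (u : ℕ → ℝ) : ℝ := (l.map fun m => (m.2.2 : ℝ) * u m.1 * u m.2.1).sum

/-- Coefficient of `u_a u_b` (ordered). -/
def coef (l : Form) (a b : ℕ) : ℤ := (l.map fun m => if m.1 = a ∧ m.2.1 = b then m.2.2 else 0).sum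

/-- All indices are below `D`. -/
def InR (D : ℕ) (l : Form) : Prop := ∀ m ∈ l, m.1 < D ∧ m.2.1 < D

theorem InR.mono {D d : ℕ} {l : Form} (h : InR D l) (hd : D ≤ d) : InR d l :=
  fun m hm => ⟨(h m hm).1.trans_le hd, (h m hm).2.trans_le hd⟩

theorem evalF_eq {d : ℕ} {l : Form} (h : InR d l) (u : ℕ → ℝ) :
    evalF l u = ∑ a ∈ range d, ∑ b ∈ range d, (coef l a b : ℝ) * u a * u b := by
  induction l with
  | nil => simp [evalF, coef]
  | cons m l ih =>
    have h1 := h m (by simp)
    have h2 : InR d l := fun m' hm' => h m' (by simp [hm'])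
    have e1 : evalF (m :: l) u = (m.2.2 : ℝ) * u m.1 * u m.2.1 + evalF l u := by simp [evalF]
    have e2 : ∀ a b, (coef (m :: l) a b : ℝ) =
        (if m.1 = a ∧ m.2.1 = b then (m.2.2 : ℝ) else 0) + coef l a b := by
      intro a b
      simp only [coef, List.map_cons, List.sum_cons]
      split_ifs <;> simp
    rw [e1, ih h2]
    simp only [e2, add_mul, Finset.sum_add_distrib]
    congr 1
    rw [Finset.sum_eq_single m.1, Finset.sum_eq_single m.2.1]
    · simp
    · intro b _ hb
      simp [Ne.symm hb]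
    · intro hb
      exact absurd (Finset.mem_range.2 h1.2) hb
    · intro a _ ha
      exact Finset.sum_eq_zero fun b _ => by simp [Ne.symm ha]
    · intro ha
      exact absurd (Finset.mem_range.2 h1.1) ha

theorem evalF_smul (l : Form) (c : ℝ) (u : ℕ → ℝ) :
    evalF l (fun i => c * u i) = c ^ 2 * evalF l u := by
  induction l with
  | nil => simp [evalF]
  | cons m l ih =>
    have e1 : ∀ v : ℕ → ℝ, evalF (m :: l) v = (m.2.2 : ℝ) * v m.1 * v m.2.1 + evalF l v := by
      intro v; simp [evalF]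
    rw [e1, e1, ih]; ring

theorem evalF_congr {D : ℕ} {l : Form} (h : InR D l) {u v : ℕ → ℝ} (huv : ∀ i < D, u i = v i) :
    evalF l u = evalF l v := by
  unfold evalF
  congr 1
  refine List.map_congr_left fun m hm => ?_
  rw [huv _ (h m hm).1, huv _ (h m hm).2]

/-- Sum of the squares of a list of forms. -/
def sos (L : List Form) (u : ℕ → ℝ) : ℝ := (L.map fun l => evalF l u ^ 2).sum

theorem sos_append (L L' : List Form) (u : ℕ → ℝ) : sos (L ++ L') u = sos L u + sos L' u := by
  simp [sos]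

theorem sos_nonneg (L : List Form) (u : ℕ → ℝ) : 0 ≤ sos L u :=
  List.sum_nonneg fun x hx => by
    obtain ⟨l, -, rfl⟩ := List.mem_map.1 hx
    positivity

theorem sq_le_sos {L : List Form} {l : Form} (h : l ∈ L) (u : ℕ → ℝ) :
    evalF l u ^ 2 ≤ sos L u :=
  List.single_le_sum (fun x hx => by
    obtain ⟨l, -, rfl⟩ := List.mem_map.1 hx
    positivity) _ (List.mem_map.2 ⟨l, h, rfl⟩)

theorem sos_eq_zero_iff {L : List Form} {u : ℕ → ℝ} : sos L u = 0 ↔ ∀ l ∈ L, evalF l u = 0 := by
  constructor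
  · intro h l hl
    have := sq_le_sos hl u
    rw [h] at this
    exact pow_eq_zero_iff two_ne_zero |>.1 (le_antisymm this (sq_nonneg _))
  · intro h
    refine List.sum_eq_zero fun x hx => ?_
    obtain ⟨l, hl, rfl⟩ := List.mem_map.1 hx
    rw [h l hl]; ring

theorem sos_congr {D : ℕ} {L : List Form} (h : ∀ l ∈ L, InR D l) {u v : ℕ → ℝ}
    (huv : ∀ i < D, u i = v i) : sos L u = sos L v := by
  unfold sos
  congr 1
  exact List.map_congr_left fun l hl => by rw [evalF_congr (h l hl) huv]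

theorem sos_flatMap {β : Type} (X : List β) (f : β → List Form) (u : ℕ → ℝ) :
    sos (X.flatMap f) u = (X.map fun x => sos (f x) u).sum := by
  induction X with
  | nil => simp [sos]
  | cons x X ih => rw [List.flatMap_cons, sos_append, ih]; simp

/-- All pairs of indices below `D`. -/
def pairs (D : ℕ) : List (ℕ × ℕ) :=
  (List.range D).flatMap fun a => (List.range D).map fun b => (a, b)

theorem mem_pairs {D : ℕ} {p : ℕ × ℕ} : p ∈ pairs D ↔ p.1 < D ∧ p.2 < D := by
  obtain ⟨a, b⟩ := p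
  simp [pairs]

theorem sum_range_list {M : Type} [AddCommMonoid M] (D : ℕ) (f : ℕ → M) :
    ((List.range D).map f).sum = ∑ a ∈ range D, f a := by
  induction D with
  | zero => simp
  | succ n ih => rw [List.range_succ, List.map_append, List.sum_append, ih, Finset.sum_range_succ]; simp

theorem sum_pairs {M : Type} [AddCommMonoid M] (D : ℕ) (f : ℕ × ℕ → M) :
    ((pairs D).map f).sum = ∑ p ∈ range D ×ˢ range D, f p := by
  rw [Finset.sum_product]
  unfold pairs
  rw [List.map_flatMap, List.flatMap_def, List.sum_flatten, List.map_map, sum_range_list]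
  refine Finset.sum_congr rfl fun a _ => ?_
  simp only [Function.comp, List.map_map]
  rw [sum_range_list]
  rfl

/-- The Lagrange slices of a form. -/
def lag (D : ℕ) (e : Form) : List Form :=
  (pairs D).flatMap fun p => (pairs D).map fun q =>
    [(q.1, q.2, 6 * coef e p.1 p.2), (p.1, p.2, -6 * coef e q.1 q.2)]

/-- Squared norm of the coefficient vector. -/
def nrm (D : ℕ) (e : Form) : ℤ := ((pairs D).map fun p => coef e p.1 p.2 * coef e p.1 p.2).sum

/-- Padding slices. -/
def pad (D : ℕ) (s : ℤ) : List Form := (pairs D).map fun p => [(p.1, p.2, s)]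

/-- Total squared norm. -/
def NN (D : ℕ) (es : List Form) : ℤ := (es.map (nrm D)).sum

/-- All slices. -/
def slices (D : ℕ) (es ex : List Form) : List Form :=
  es.flatMap (lag D) ++ pad D (18 * NN D es - 1) ++ ex

theorem nrm_nonneg (D : ℕ) (e : Form) : 0 ≤ nrm D e :=
  List.sum_nonneg fun x hx => by
    obtain ⟨l, -, rfl⟩ := List.mem_map.1 hx
    exact mul_self_nonneg _

theorem NN_nonneg (D : ℕ) (es : List Form) : 0 ≤ NN D es :=
  List.sum_nonneg fun x hx => by
    obtain ⟨l, -, rfl⟩ := List.mem_map.1 hx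
    exact nrm_nonneg _ _

theorem ssq_sq (D : ℕ) (u : ℕ → ℝ) :
    ssq D u ^ 2 = ∑ p ∈ range D ×ˢ range D, (u p.1 * u p.2) ^ 2 := by
  rw [Finset.sum_product, sq, ssq, Finset.sum_mul_sum]
  exact Finset.sum_congr rfl fun a _ => Finset.sum_congr rfl fun b _ => by ring

theorem lagrange {ι : Type} (s : Finset ι) (E U : ι → ℝ) :
    ∑ p ∈ s, ∑ q ∈ s, (E p * U q - E q * U p) ^ 2
      = 2 * ((∑ p ∈ s, E p ^ 2) * (∑ p ∈ s, U p ^ 2) - (∑ p ∈ s, E p * U p) ^ 2) := by
  have h1 : ∑ p ∈ s, ∑ q ∈ s, E p ^ 2 * U q ^ 2 = (∑ p ∈ s, E p ^ 2) * (∑ p ∈ s, U p ^ 2) := by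
    rw [Finset.sum_mul_sum]
  have h2 : ∑ p ∈ s, ∑ q ∈ s, E q ^ 2 * U p ^ 2 = (∑ p ∈ s, E p ^ 2) * (∑ p ∈ s, U p ^ 2) := by
    rw [Finset.sum_comm, h1]
  have h3 : ∑ p ∈ s, ∑ q ∈ s, (E p * U p) * (E q * U q) = (∑ p ∈ s, E p * U p) ^ 2 := by
    rw [sq, Finset.sum_mul_sum]
  have h4 : ∑ p ∈ s, ∑ q ∈ s, (E p * U q - E q * U p) ^ 2 =
      ∑ p ∈ s, ∑ q ∈ s, E p ^ 2 * U q ^ 2 + ∑ p ∈ s, ∑ q ∈ s, E q ^ 2 * U p ^ 2
        - 2 * ∑ p ∈ s, ∑ q ∈ s, (E p * U p) * (E q * U q) := by
    simp only [Finset.mul_sum, ← Finset.sum_add_distrib, ← Finset.sum_sub_distrib]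
    exact Finset.sum_congr rfl fun a _ => Finset.sum_congr rfl fun b _ => by ring
  rw [h4, h1, h2, h3]; ring

theorem sos_lag {D : ℕ} {e : Form} (h : InR D e) (u : ℕ → ℝ) :
    sos (lag D e) u = 72 * ((nrm D e : ℝ) * ssq D u ^ 2 - evalF e u ^ 2) := by
  have h1 : sos (lag D e) u = ∑ p ∈ range D ×ˢ range D, ∑ q ∈ range D ×ˢ range D,
      36 * ((coef e p.1 p.2 : ℝ) * (u q.1 * u q.2) - (coef e q.1 q.2 : ℝ) * (u p.1 * u p.2)) ^ 2 := by
    unfold lag
    rw [sos_flatMap, sum_pairs]
    refine Finset.sum_congr rfl fun p _ => ?_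
    unfold sos
    rw [List.map_map, sum_pairs]
    refine Finset.sum_congr rfl fun q _ => ?_
    simp only [Function.comp, evalF, List.map_cons, List.map_nil, List.sum_cons, List.sum_nil]
    push_cast
    ring
  have h2 : (nrm D e : ℝ) = ∑ p ∈ range D ×ˢ range D, (coef e p.1 p.2 : ℝ) ^ 2 := by
    unfold nrm
    rw [sum_pairs]
    push_cast
    exact Finset.sum_congr rfl fun p _ => by ring
  have h3 : evalF e u = ∑ p ∈ range D ×ˢ range D, (coef e p.1 p.2 : ℝ) * (u p.1 * u p.2) := by
    rw [evalF_eq h, Finset.sum_product]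
    exact Finset.sum_congr rfl fun a _ => Finset.sum_congr rfl fun b _ => by ring
  have h4 := lagrange (range D ×ˢ range D) (fun p => (coef e p.1 p.2 : ℝ)) (fun p => u p.1 * u p.2)
  rw [h1, h2, h3, ssq_sq]
  simp only [← Finset.mul_sum]
  rw [h4]; ring

theorem sos_pad (D : ℕ) (s : ℤ) (u : ℕ → ℝ) : sos (pad D s) u = (s : ℝ) ^ 2 * ssq D u ^ 2 := by
  unfold pad sos
  rw [List.map_map, sum_pairs, ssq_sq, Finset.mul_sum]
  refine Finset.sum_congr rfl fun p _ => ?_
  simp only [Function.comp, evalF, List.map_cons, List.map_nil, List.sum_cons, List.sum_nil]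
  ring

theorem sos_slices {D : ℕ} {es : List Form} (h : ∀ e ∈ es, InR D e) (ex : List Form)
    (u : ℕ → ℝ) : sos (slices D es ex) u =
      (18 * (NN D es : ℝ) + 1) ^ 2 * ssq D u ^ 2 - 72 * sos es u + sos ex u := by
  have h1 : sos (es.flatMap (lag D)) u = 72 * ((NN D es : ℝ) * ssq D u ^ 2 - sos es u) := by
    induction es with
    | nil => simp [sos, NN]
    | cons e es ih =>
      rw [List.flatMap_cons, sos_append, ih fun e' he' => h e' (by simp [he']),
        sos_lag (h e (by simp))]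
      simp only [NN, sos, List.map_cons, List.sum_cons]
      push_cast
      ring
  unfold slices
  rw [sos_append, sos_append, h1, sos_pad]
  push_cast
  ring

theorem inR_slices {D : ℕ} (es : List Form) {ex : List Form} (h : ∀ e ∈ ex, InR D e) :
    ∀ l ∈ slices D es ex, InR D l := by
  intro l hl
  simp only [slices, List.mem_append, List.mem_flatMap, lag, pad, List.mem_map] at hl
  rcases hl with (⟨e, -, p, hp, q, hq, rfl⟩ | ⟨p, hp, rfl⟩) | hl
  · intro m hm
    simp only [List.mem_cons, List.not_mem_nil, or_false] at hm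
    rcases hm with rfl | rfl
    · exact mem_pairs.1 hq
    · exact mem_pairs.1 hp
  · intro m hm
    simp only [List.mem_cons, List.not_mem_nil, or_false] at hm
    rw [hm]
    exact mem_pairs.1 hp
  · exact h l hl

/-- The dense tensor with symmetrised slices. -/
def tens (d : ℕ) (L : List Form) : List (List (List ℚ)) :=
  (List.range d).map fun a => (List.range d).map fun b => (List.range d).map fun k =>
    ((coef (L.getD k []) a b + coef (L.getD k []) b a : ℤ) : ℚ)

theorem isCube_tens (d : ℕ) (L : List Form) : IsCube d (tens d L) := by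
  refine ⟨by simp [tens], fun M hM => ?_⟩
  obtain ⟨a, -, rfl⟩ := List.mem_map.1 hM
  refine ⟨by simp, fun r hr => ?_⟩
  obtain ⟨b, -, rfl⟩ := List.mem_map.1 hr
  simp

theorem getD_map_range {β : Type} (d : ℕ) (f : ℕ → β) (i : ℕ) (x : β) :
    ((List.range d).map f).getD i x = if i < d then f i else x := by
  split_ifs with h
  · rw [List.getD_eq_getElem _ _ (by simpa using h)]; simp
  · rw [List.getD_eq_default _ _ (by simpa using h)]

theorem ent_tens (d : ℕ) (L : List Form) (a b k : ℕ) : ent (tens d L) a b k =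
    if a < d ∧ b < d ∧ k < d then
      (coef (L.getD k []) a b : ℝ) + (coef (L.getD k []) b a : ℝ) else 0 := by
  unfold ent entry tens
  rw [getD_map_range]
  by_cases ha : a < d
  · rw [if_pos ha, getD_map_range]
    by_cases hb : b < d
    · rw [if_pos hb, getD_map_range]
      by_cases hk : k < d
      · simp [ha, hb, hk]
      · simp [hk]
    · simp [hb]
  · simp [ha]

theorem ent_tens_symm (d : ℕ) (L : List Form) (a b k : ℕ) :
    ent (tens d L) a b k = ent (tens d L) b a k := by
  rw [ent_tens, ent_tens]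
  by_cases h : a < d ∧ b < d ∧ k < d
  · rw [if_pos h, if_pos ⟨h.2.1, h.1, h.2.2⟩, add_comm]
  · rw [if_neg h, if_neg fun h' => h ⟨h'.2.1, h'.1, h'.2.2⟩]

theorem sum_getD {d : ℕ} (L : List Form) (hL : L.length ≤ d) (f : Form → ℝ) (hf : f [] = 0) :
    ∑ k ∈ range d, f (L.getD k []) = (L.map f).sum := by
  rw [← Finset.sum_subset (Finset.range_subset_range.2 hL), ← sum_range_list]
  · congr 1
    apply List.ext_getElem
    · simp
    · intro i h1 h2
      simp only [List.getElem_map, List.getElem_range]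
      rw [List.getD_eq_getElem]
  · intro k _ hk
    rw [List.getD_eq_default _ _ (by simpa using hk), hf]

theorem quart_tens {d : ℕ} {L : List Form} (h : ∀ l ∈ L, InR d l) (hL : L.length ≤ d)
    (u : ℕ → ℝ) : quart d (ent (tens d L)) u = 4 * sos L u := by
  have h1 : ∀ k ∈ range d, bil d (ent (tens d L)) u u k = 2 * evalF (L.getD k []) u := by
    intro k hk
    have hR : InR d (L.getD k []) := by
      by_cases hk' : k < L.length
      · rw [List.getD_eq_getElem _ _ hk']
        exact h _ (List.getElem_mem _)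
      · rw [List.getD_eq_default _ _ (by simpa using hk')]
        intro m hm
        simp at hm
    have e : ∑ a ∈ range d, ∑ b ∈ range d, (coef (L.getD k []) b a : ℝ) * u a * u b
        = evalF (L.getD k []) u := by
      rw [evalF_eq hR, Finset.sum_comm]
      exact Finset.sum_congr rfl fun a _ => Finset.sum_congr rfl fun b _ => by ring
    rw [two_mul]
    nth_rewrite 2 [← e]
    rw [evalF_eq hR, ← Finset.sum_add_distrib]
    refine Finset.sum_congr rfl fun a ha => ?_
    rw [← Finset.sum_add_distrib]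
    refine Finset.sum_congr rfl fun b hb => ?_
    rw [ent_tens, if_pos ⟨Finset.mem_range.1 ha, Finset.mem_range.1 hb, Finset.mem_range.1 hk⟩]
    ring
  unfold quart ssq
  rw [Finset.sum_congr rfl fun k hk => by rw [h1 k hk]]
  rw [sum_getD L hL (fun l => (2 * evalF l u) ^ 2) (by simp [evalF]), sos, ← List.sum_map_mul_left]
  congr 1
  exact List.map_congr_left fun l _ => by ring

/-- The instance built from a list of forms and extra slices. -/
def inst (D : ℕ) (es ex : List Form) : Inst :=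
  (D + (slices D es ex).length, tens (D + (slices D es ex).length) (slices D es ex),
    ((36 * NN D es + 2 : ℤ) : ℚ))

theorem valid_inst (D : ℕ) (es ex : List Form) : Valid (inst D es ex) := by
  refine ⟨isCube_tens _ _, ?_⟩
  have := NN_nonneg D es
  change (0 : ℚ) < ((36 * NN D es + 2 : ℤ) : ℚ)
  exact_mod_cast (by omega : (0 : ℤ) < 36 * NN D es + 2)

theorem quart_inst {D : ℕ} {es ex : List Form} (h : ∀ e ∈ es, InR D e) (h' : ∀ e ∈ ex, InR D e)
    (u : ℕ → ℝ) : quart (inst D es ex).1 (ent (inst D es ex).2.1) u =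
      ((inst D es ex).2.2 : ℝ) ^ 2 * ssq D u ^ 2 - 288 * sos es u + 4 * sos ex u := by
  have h1 := quart_tens (d := D + (slices D es ex).length) (L := slices D es ex)
    (fun l hl => (inR_slices es h' l hl).mono (Nat.le_add_right _ _)) (Nat.le_add_left _ _) u
  change quart (D + (slices D es ex).length) (ent (tens _ _)) u =
    (((36 * NN D es + 2 : ℤ) : ℚ) : ℝ) ^ 2 * _ - _ + _
  rw [h1, sos_slices h]
  push_cast
  ring

/-- Truncation. -/
def trunc (D : ℕ) (u : ℕ → ℝ) (i : ℕ) : ℝ := if i < D then u i else 0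

theorem ssq_trunc {D d : ℕ} (h : D ≤ d) (u : ℕ → ℝ) : ssq d (trunc D u) = ssq D u := by
  unfold ssq
  rw [← Finset.sum_subset (Finset.range_subset_range.2 h)]
  · exact Finset.sum_congr rfl fun i hi => by simp [trunc, Finset.mem_range.1 hi]
  · intro i _ hi
    have : ¬ i < D := by simpa using hi
    simp [trunc, this]

theorem trunc_eq {D : ℕ} (u : ℕ → ℝ) : ∀ i < D, trunc D u i = u i := fun i hi => by
  simp [trunc, hi]

theorem exceed_inst {D : ℕ} {es ex : List Form} (h : ∀ e ∈ es, InR D e) (h' : ∀ e ∈ ex, InR D e) :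
    ((inst D es ex).2.2 : ℝ) < specNorm (inst D es ex).1 (inst D es ex).2.1 ↔
      ∃ u, 72 * sos es u < sos ex u := by
  have hσ : (0 : ℝ) ≤ ((inst D es ex).2.2 : ℝ) := by exact_mod_cast (valid_inst D es ex).2.le
  have hd : D ≤ (inst D es ex).1 := Nat.le_add_right _ _
  have hsym : ∀ i j k, ent (inst D es ex).2.1 i j k = ent (inst D es ex).2.1 j i k :=
    ent_tens_symm _ _
  rw [lt_specNorm_iff _ hσ, exceed_iff_quart hsym hσ]
  constructor
  · rintro ⟨u, hu⟩
    refine ⟨u, ?_⟩
    have h1 := quart_inst h h' u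
    have h2 : ssq D u ^ 2 ≤ ssq (inst D es ex).1 u ^ 2 :=
      pow_le_pow_left₀ (ssq_nonneg _ _) (ssq_mono hd u) 2
    have h3 := mul_le_mul_of_nonneg_left h2 (sq_nonneg ((inst D es ex).2.2 : ℝ))
    have hu' : ((inst D es ex).2.2 : ℝ) ^ 2 * ssq (inst D es ex).1 u ^ 2 <
      quart (inst D es ex).1 (ent (inst D es ex).2.1) u := hu
    linarith
  · rintro ⟨u, hu⟩
    refine ⟨trunc D u, ?_⟩
    have h1 := quart_inst h h' (trunc D u)
    rw [sos_congr h (trunc_eq u), sos_congr h' (trunc_eq u), ssq_trunc le_rfl] at h1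
    change ((inst D es ex).2.2 : ℝ) ^ 2 * ssq (inst D es ex).1 (trunc D u) ^ 2 <
      quart (inst D es ex).1 (ent (inst D es ex).2.1) (trunc D u)
    rw [h1, ssq_trunc hd]
    linarith

theorem sv_inst {D : ℕ} {es : List Form} (h : ∀ e ∈ es, InR D e) :
    IsSingularValue (inst D es []).1 (inst D es []).2.1 ((inst D es []).2.2 : ℝ) ↔
      ∃ u, ssq D u ≠ 0 ∧ ∀ e ∈ es, evalF e u = 0 := by
  have hσ : (0 : ℝ) < ((inst D es []).2.2 : ℝ) := by exact_mod_cast (valid_inst D es []).2
  have hd : D ≤ (inst D es []).1 := Nat.le_add_right _ _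
  have h' : ∀ e ∈ ([] : List Form), InR D e := by simp
  have h0 : ∀ u, sos [] u = 0 := fun u => by simp [sos]
  have hle : ∀ u, ((inst D es []).2.2 : ℝ) ^ 2 * ssq D u ^ 2 ≤
      ((inst D es []).2.2 : ℝ) ^ 2 * ssq (inst D es []).1 u ^ 2 := fun u =>
    mul_le_mul_of_nonneg_left (pow_le_pow_left₀ (ssq_nonneg _ _) (ssq_mono hd u) 2) (sq_nonneg _)
  have hb : ∀ u, quart (inst D es []).1 (ent (inst D es []).2.1) u ≤
      ((inst D es []).2.2 : ℝ) ^ 2 * ssq (inst D es []).1 u ^ 2 := by
    intro u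
    rw [quart_inst h h', h0]
    linarith [hle u, sos_nonneg es u]
  have hsym : ∀ i j k, ent (inst D es []).2.1 i j k = ent (inst D es []).2.1 j i k :=
    ent_tens_symm _ _
  rw [isSingularValue_iff, svn_iff_quart hsym hσ hb]
  constructor
  · rintro ⟨u, hu, hq⟩
    have h1 := quart_inst h h' u
    have hq' : quart (inst D es []).1 (ent (inst D es []).2.1) u =
      ((inst D es []).2.2 : ℝ) ^ 2 * ssq (inst D es []).1 u ^ 2 := hq
    rw [h0, hq'] at h1
    have h2 : sos es u = 0 := le_antisymm (by linarith [hle u]) (sos_nonneg _ _)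
    refine ⟨u, fun h3 => ?_, sos_eq_zero_iff.1 h2⟩
    rw [h2, h3] at h1
    have : 0 < ((inst D es []).2.2 : ℝ) ^ 2 * ssq (inst D es []).1 u ^ 2 := by positivity
    linarith
  · rintro ⟨u, hu, he⟩
    refine ⟨trunc D u, by rwa [ssq_trunc hd], ?_⟩
    have h1 := quart_inst h h' (trunc D u)
    rw [sos_congr h (trunc_eq u), h0, ssq_trunc le_rfl, sos_eq_zero_iff.2 he] at h1
    change quart (inst D es []).1 (ent (inst D es []).2.1) (trunc D u) =
      ((inst D es []).2.2 : ℝ) ^ 2 * ssq (inst D es []).1 (trunc D u) ^ 2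
    rw [h1, ssq_trunc hd]
    ring

end Pool.Agent.H238Z.Tens
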