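import Pool.Agent.H238Z.TensDefs

/-! Trilinear forms with symmetric slices. -/

namespace Pool.Agent.H238Z.Tens

open Finset

/-- Sum of squares of the first `d` coordinates. -/
def ssq (d : ℕ) (x : ℕ → ℝ) : ℝ := ∑ i ∈ range d, x i ^ 2

/-- The trilinear form on sequences. -/
def trin (d : ℕ) (t : ℕ → ℕ → ℕ → ℝ) (x y z : ℕ → ℝ) : ℝ :=
  ∑ i ∈ range d, ∑ j ∈ range d, ∑ k ∈ range d, t i j k * x i * y j * z k

/-- The bilinear form of slice `k`. -/
def bil (d : ℕ) (t : ℕ → ℕ → ℕ → ℝ) (x y : ℕ → ℝ) (k : ℕ) : ℝ :=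
  ∑ i ∈ range d, ∑ j ∈ range d, t i j k * x i * y j

/-- The singular value equations on sequences. -/
def SVN (d : ℕ) (t : ℕ → ℕ → ℕ → ℝ) (σ : ℝ) : Prop :=
  ∃ x y z : ℕ → ℝ, ssq d x = 1 ∧ ssq d y = 1 ∧ ssq d z = 1 ∧
    (∀ i < d, ∑ j ∈ range d, ∑ k ∈ range d, t i j k * y j * z k = σ * x i) ∧
    (∀ j < d, ∑ i ∈ range d, ∑ k ∈ range d, t i j k * x i * z k = σ * y j) ∧
    (∀ k < d, ∑ i ∈ range d, ∑ j ∈ range d, t i j k * x i * y j = σ * z k)

theorem ssq_nonneg (d : ℕ) (x : ℕ → ℝ) : 0 ≤ ssq d x :=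
  Finset.sum_nonneg fun _ _ => sq_nonneg _

theorem ssq_mono {D d : ℕ} (h : D ≤ d) (x : ℕ → ℝ) : ssq D x ≤ ssq d x :=
  Finset.sum_le_sum_of_subset_of_nonneg (Finset.range_subset_range.2 h) fun _ _ _ => sq_nonneg _

theorem ssq_smul (d : ℕ) (c : ℝ) (x : ℕ → ℝ) : ssq d (fun i => c * x i) = c ^ 2 * ssq d x := by
  simp only [ssq, Finset.mul_sum, mul_pow]

theorem trin_eq_bil (d : ℕ) (t : ℕ → ℕ → ℕ → ℝ) (x y z : ℕ → ℝ) :
    trin d t x y z = ∑ k ∈ range d, bil d t x y k * z k := by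
  unfold trin bil
  simp only [Finset.sum_mul]
  rw [Finset.sum_congr rfl fun i _ => Finset.sum_comm, Finset.sum_comm]

theorem bil_smul (d : ℕ) (t : ℕ → ℕ → ℕ → ℝ) (c : ℝ) (x : ℕ → ℝ) (k : ℕ) :
    bil d t (fun i => c * x i) (fun i => c * x i) k = c ^ 2 * bil d t x x k := by
  simp only [bil, Finset.mul_sum]
  exact Finset.sum_congr rfl fun i _ => Finset.sum_congr rfl fun j _ => by ring

theorem bil_polar {d : ℕ} {t : ℕ → ℕ → ℕ → ℝ} (ht : ∀ i j k, t i j k = t j i k)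
    (x y : ℕ → ℝ) (k : ℕ) :
    4 * bil d t x y k = bil d t (fun i => x i + y i) (fun i => x i + y i) k
      - bil d t (fun i => x i - y i) (fun i => x i - y i) k := by
  have h1 : bil d t y x k = bil d t x y k := by
    unfold bil
    rw [Finset.sum_comm]
    exact Finset.sum_congr rfl fun i _ => Finset.sum_congr rfl fun j _ => by rw [ht j i k]; ring
  have h2 : bil d t (fun i => x i + y i) (fun i => x i + y i) k
      - bil d t (fun i => x i - y i) (fun i => x i - y i) k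
      = 2 * bil d t x y k + 2 * bil d t y x k := by
    simp only [bil, Finset.mul_sum, ← Finset.sum_sub_distrib, ← Finset.sum_add_distrib]
    exact Finset.sum_congr rfl fun i _ => Finset.sum_congr rfl fun j _ => by ring
  rw [h2, h1]; ring

theorem ssq_par (d : ℕ) (x y : ℕ → ℝ) :
    ssq d (fun i => x i + y i) + ssq d (fun i => x i - y i) = 2 * ssq d x + 2 * ssq d y := by
  simp only [ssq, Finset.mul_sum, ← Finset.sum_add_distrib]
  exact Finset.sum_congr rfl fun i _ => by ring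

/-- The quartic form of the slices. -/
def quart (d : ℕ) (t : ℕ → ℕ → ℕ → ℝ) (u : ℕ → ℝ) : ℝ := ssq d (bil d t u u)

theorem trin_sq_le (d : ℕ) (t : ℕ → ℕ → ℕ → ℝ) (u z : ℕ → ℝ) (hz : ssq d z = 1) :
    trin d t u u z ^ 2 ≤ quart d t u := by
  rw [trin_eq_bil]
  have := Finset.sum_mul_sq_le_sq_mul_sq (range d) (bil d t u u) z
  unfold quart
  unfold ssq at hz ⊢
  rw [hz, mul_one] at this
  exact this

theorem trin_polar {d : ℕ} {t : ℕ → ℕ → ℕ → ℝ} (ht : ∀ i j k, t i j k = t j i k)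
    (x y z : ℕ → ℝ) :
    4 * trin d t x y z = trin d t (fun i => x i + y i) (fun i => x i + y i) z
      - trin d t (fun i => x i - y i) (fun i => x i - y i) z := by
  simp only [trin_eq_bil, Finset.mul_sum, ← Finset.sum_sub_distrib]
  refine Finset.sum_congr rfl fun k _ => ?_
  rw [← mul_assoc, bil_polar ht]; ring

theorem abs_trin_le {d : ℕ} {t : ℕ → ℕ → ℕ → ℝ} (ht : ∀ i j k, t i j k = t j i k) {σ : ℝ}
    (hσ : 0 ≤ σ) (h : ∀ u, quart d t u ≤ σ ^ 2 * ssq d u ^ 2) {x y z : ℕ → ℝ}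
    (hx : ssq d x = 1) (hy : ssq d y = 1) (hz : ssq d z = 1) : |trin d t x y z| ≤ σ := by
  have key : ∀ u, |trin d t u u z| ≤ σ * ssq d u := by
    intro u
    apply abs_le_of_sq_le_sq _ (mul_nonneg hσ (ssq_nonneg d u))
    rw [mul_pow]
    exact (trin_sq_le d t u z hz).trans (h u)
  have h1 := trin_polar (d := d) ht x y z
  have h2 := key (fun i => x i + y i)
  have h3 := key (fun i => x i - y i)
  have h4 := ssq_par d x y
  rw [hx, hy] at h4
  have h5 : σ * ssq d (fun i => x i + y i) + σ * ssq d (fun i => x i - y i) = 4 * σ := by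
    rw [← mul_add, h4]; ring
  rw [abs_le] at h2 h3 ⊢
  constructor <;> linarith [h2.1, h2.2, h3.1, h3.2]

theorem trin_lt {d : ℕ} {t : ℕ → ℕ → ℕ → ℝ} (ht : ∀ i j k, t i j k = t j i k) {σ : ℝ}
    (hσ : 0 ≤ σ) (h : ∀ u, ssq d u ≠ 0 → quart d t u < σ ^ 2 * ssq d u ^ 2) {x y z : ℕ → ℝ}
    (hx : ssq d x = 1) (hy : ssq d y = 1) (hz : ssq d z = 1) : trin d t x y z < σ := by
  have key : ∀ u, ssq d u ≠ 0 → |trin d t u u z| < σ * ssq d u := by
    intro u hu
    apply abs_lt_of_sq_lt_sq _ (mul_nonneg hσ (ssq_nonneg d u))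
    rw [mul_pow]
    exact (trin_sq_le d t u z hz).trans_lt (h u hu)
  have key0 : ∀ u, ssq d u = 0 → trin d t u u z = 0 := by
    intro u hu
    have h0 : ∀ i ∈ range d, u i = 0 := by
      intro i hi
      have := (Finset.sum_eq_zero_iff_of_nonneg fun _ _ => sq_nonneg _).1 hu i hi
      simpa using this
    exact Finset.sum_eq_zero fun i hi => Finset.sum_eq_zero fun j _ =>
      Finset.sum_eq_zero fun k _ => by rw [h0 i hi]; ring
  have h1 := trin_polar (d := d) ht x y z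
  have h4 := ssq_par d x y
  rw [hx, hy] at h4
  have h5 : σ * ssq d (fun i => x i + y i) + σ * ssq d (fun i => x i - y i) = 4 * σ := by
    rw [← mul_add, h4]; ring
  by_cases ha : ssq d (fun i => x i + y i) = 0
  · have hb : ssq d (fun i => x i - y i) ≠ 0 := by intro hb; rw [ha, hb] at h4; norm_num at h4
    have h2 := key0 _ ha
    have h3 := abs_lt.1 (key _ hb)
    rw [ha] at h5
    linarith [h3.1, h3.2]
  · have h2 := abs_lt.1 (key _ ha)
    by_cases hb : ssq d (fun i => x i - y i) = 0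
    · have h3 := key0 _ hb
      rw [hb] at h5
      linarith [h2.1, h2.2]
    · have h3 := abs_lt.1 (key _ hb)
      linarith [h2.1, h2.2, h3.1, h3.2]

/-- From a nonzero vector to unit vectors. -/
theorem exists_unit {d : ℕ} {t : ℕ → ℕ → ℕ → ℝ} {u : ℕ → ℝ} (hu : ssq d u ≠ 0)
    (hq : quart d t u ≠ 0) : ∃ x z : ℕ → ℝ, ssq d x = 1 ∧ ssq d z = 1 ∧ 0 ≤ trin d t x x z ∧
      trin d t x x z ^ 2 * ssq d u ^ 2 = quart d t u := by
  have hu' : 0 < ssq d u := lt_of_le_of_ne (ssq_nonneg d u) (Ne.symm hu)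
  have hq' : 0 < quart d t u := lt_of_le_of_ne (ssq_nonneg d _) (Ne.symm hq)
  set a := Real.sqrt (ssq d u) with ha
  set b := Real.sqrt (quart d t u) with hb
  have ha0 : 0 < a := Real.sqrt_pos.2 hu'
  have hb0 : 0 < b := Real.sqrt_pos.2 hq'
  have ha2 : a ^ 2 = ssq d u := Real.sq_sqrt hu'.le
  have hb2 : b ^ 2 = quart d t u := Real.sq_sqrt hq'.le
  have e : trin d t (fun i => a⁻¹ * u i) (fun i => a⁻¹ * u i) (fun k => b⁻¹ * bil d t u u k)
      = b / a ^ 2 := by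
    rw [trin_eq_bil]
    simp only [bil_smul]
    have : ∑ k ∈ range d, a⁻¹ ^ 2 * bil d t u u k * (b⁻¹ * bil d t u u k)
        = a⁻¹ ^ 2 * b⁻¹ * quart d t u := by
      unfold quart ssq
      rw [Finset.mul_sum]
      exact Finset.sum_congr rfl fun k _ => by ring
    rw [this, ← hb2]
    field_simp
  refine ⟨fun i => a⁻¹ * u i, fun k => b⁻¹ * bil d t u u k, ?_, ?_, ?_, ?_⟩
  · rw [ssq_smul, ← ha2]; field_simp
  · rw [ssq_smul]
    change b⁻¹ ^ 2 * quart d t u = 1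
    rw [← hb2]; field_simp
  · rw [e]; positivity
  · rw [e, ← ha2, ← hb2]; field_simp

theorem exceed_iff_quart {d : ℕ} {t : ℕ → ℕ → ℕ → ℝ} (ht : ∀ i j k, t i j k = t j i k) {σ : ℝ}
    (hσ : 0 ≤ σ) : (∃ x y z : ℕ → ℝ, ssq d x = 1 ∧ ssq d y = 1 ∧ ssq d z = 1 ∧
      σ < |trin d t x y z|) ↔ ∃ u, σ ^ 2 * ssq d u ^ 2 < quart d t u := by
  constructor
  · rintro ⟨x, y, z, hx, hy, hz, h⟩
    by_contra hno
    push Not at hno
    exact absurd (abs_trin_le ht hσ hno hx hy hz) (not_le.2 h)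
  · rintro ⟨u, hu⟩
    have hq : quart d t u ≠ 0 := by
      have : 0 ≤ σ ^ 2 * ssq d u ^ 2 := by positivity
      exact (this.trans_lt hu).ne'
    have hu0 : ssq d u ≠ 0 := by
      intro h0
      apply hq
      have h1 : ∀ i ∈ range d, u i = 0 := by
        intro i hi
        have := (Finset.sum_eq_zero_iff_of_nonneg fun _ _ => sq_nonneg _).1 h0 i hi
        simpa using this
      unfold quart ssq
      refine Finset.sum_eq_zero fun k _ => ?_
      have : bil d t u u k = 0 := Finset.sum_eq_zero fun i hi => Finset.sum_eq_zero fun j _ => by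
        rw [h1 i hi]; ring
      rw [this]; ring
    obtain ⟨x, z, hx, hz, h0, h1⟩ := exists_unit hu0 hq
    refine ⟨x, x, z, hx, hx, hz, ?_⟩
    rw [abs_of_nonneg h0]
    have hp : 0 < ssq d u ^ 2 := by positivity
    rw [← h1] at hu
    exact lt_of_pow_lt_pow_left₀ 2 h0 (lt_of_mul_lt_mul_right hu hp.le)

/-- A maximiser of a linear form on the sphere. -/
theorem eq_of_max {d : ℕ} {v x : ℕ → ℝ} {σ : ℝ} (hσ : 0 < σ) (hx : ssq d x = 1)
    (h1 : ∑ i ∈ range d, v i * x i = σ)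
    (h2 : ∀ x' : ℕ → ℝ, ssq d x' = 1 → ∑ i ∈ range d, v i * x' i ≤ σ) :
    ∀ i < d, v i = σ * x i := by
  have hv : ssq d v ≤ σ ^ 2 := by
    rcases (ssq_nonneg d v).eq_or_lt with h0 | h0
    · rw [← h0]; positivity
    · set a := Real.sqrt (ssq d v) with ha
      have ha0 : 0 < a := Real.sqrt_pos.2 h0
      have ha2 : a ^ 2 = ssq d v := Real.sq_sqrt h0.le
      have h3 := h2 (fun i => a⁻¹ * v i) (by rw [ssq_smul, ← ha2]; field_simp)
      have h4 : ∑ i ∈ range d, v i * (a⁻¹ * v i) = a⁻¹ * ssq d v := by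
        unfold ssq
        rw [Finset.mul_sum]
        exact Finset.sum_congr rfl fun i _ => by ring
      rw [h4, ← ha2] at h3
      have h5 : a⁻¹ * a ^ 2 = a := by field_simp
      rw [h5] at h3
      rw [← ha2]
      exact pow_le_pow_left₀ ha0.le h3 2
  have h6 : ssq d (fun i => v i - σ * x i) = ssq d v - 2 * σ * (∑ i ∈ range d, v i * x i)
      + σ ^ 2 * ssq d x := by
    simp only [ssq, Finset.mul_sum, ← Finset.sum_sub_distrib, ← Finset.sum_add_distrib]
    exact Finset.sum_congr rfl fun i _ => by ring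
  rw [h1, hx] at h6
  have h7 : ssq d (fun i => v i - σ * x i) = 0 :=
    le_antisymm (by rw [h6]; nlinarith) (ssq_nonneg _ _)
  intro i hi
  have := (Finset.sum_eq_zero_iff_of_nonneg fun _ _ => sq_nonneg _).1 h7 i (Finset.mem_range.2 hi)
  have h8 : v i - σ * x i = 0 := by simpa using this
  linarith

theorem trin_eq1 (d : ℕ) (t : ℕ → ℕ → ℕ → ℝ) (x y z : ℕ → ℝ) :
    trin d t x y z = ∑ i ∈ range d, (∑ j ∈ range d, ∑ k ∈ range d, t i j k * y j * z k) * x i := by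
  unfold trin
  simp only [Finset.sum_mul]
  exact Finset.sum_congr rfl fun i _ => Finset.sum_congr rfl fun j _ =>
    Finset.sum_congr rfl fun k _ => by ring

theorem trin_eq2 (d : ℕ) (t : ℕ → ℕ → ℕ → ℝ) (x y z : ℕ → ℝ) :
    trin d t x y z = ∑ j ∈ range d, (∑ i ∈ range d, ∑ k ∈ range d, t i j k * x i * z k) * y j := by
  unfold trin
  simp only [Finset.sum_mul]
  rw [Finset.sum_comm]
  exact Finset.sum_congr rfl fun i _ => Finset.sum_congr rfl fun j _ =>
    Finset.sum_congr rfl fun k _ => by ring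

theorem svn_iff_quart {d : ℕ} {t : ℕ → ℕ → ℕ → ℝ} (ht : ∀ i j k, t i j k = t j i k) {σ : ℝ}
    (hσ : 0 < σ) (h : ∀ u, quart d t u ≤ σ ^ 2 * ssq d u ^ 2) :
    SVN d t σ ↔ ∃ u, ssq d u ≠ 0 ∧ quart d t u = σ ^ 2 * ssq d u ^ 2 := by
  constructor
  · rintro ⟨x, y, z, hx, hy, hz, -, -, h3⟩
    by_contra hno
    push Not at hno
    have h4 := trin_lt ht hσ.le (fun u hu => lt_of_le_of_ne (h u) (hno u hu)) hx hy hz
    have h5 : trin d t x y z = σ * ssq d z := by
      rw [trin_eq_bil, ssq, Finset.mul_sum]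
      refine Finset.sum_congr rfl fun k hk => ?_
      unfold bil
      rw [h3 k (Finset.mem_range.1 hk)]; ring
    rw [h5, hz] at h4
    linarith
  · rintro ⟨u, hu, hq⟩
    have hq0 : quart d t u ≠ 0 := by rw [hq]; positivity
    obtain ⟨x, z, hx, hz, h0, h1⟩ := exists_unit hu hq0
    have hp : ssq d u ^ 2 ≠ 0 := by positivity
    rw [hq] at h1
    have h2 : trin d t x x z = σ :=
      (pow_left_inj₀ h0 hσ.le two_ne_zero).1 (mul_right_cancel₀ hp h1)
    have hb : ∀ {a b c : ℕ → ℝ}, ssq d a = 1 → ssq d b = 1 → ssq d c = 1 → trin d t a b c ≤ σ :=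
      fun ha hb hc => (le_abs_self _).trans (abs_trin_le ht hσ.le h ha hb hc)
    refine ⟨x, x, z, hx, hx, hz, ?_, ?_, ?_⟩
    · exact eq_of_max hσ hx (by rw [← trin_eq1, h2]) fun x' hx' => by
        rw [← trin_eq1]; exact hb hx' hx hz
    · exact eq_of_max hσ hx (by rw [← trin_eq2, h2]) fun x' hx' => by
        rw [← trin_eq2]; exact hb hx hx' hz
    · exact eq_of_max (v := bil d t x x) hσ hz (by rw [← trin_eq_bil, h2]) fun x' hx' => by
        rw [← trin_eq_bil]; exact hb hx hx hx'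

/-! ### Transfer between Euclidean vectors and sequences -/

/-- The real entries. -/
def ent (T : List (List (List ℚ))) (i j k : ℕ) : ℝ := (entry T i j k : ℝ)

/-- A Euclidean vector as a sequence. -/
noncomputable def toSeq {d : ℕ} (x : EuclideanSpace ℝ (Fin d)) (i : ℕ) : ℝ :=
  if h : i < d then x ⟨i, h⟩ else 0

/-- A sequence as a Euclidean vector. -/
noncomputable def ofSeq (d : ℕ) (x : ℕ → ℝ) : EuclideanSpace ℝ (Fin d) :=
  WithLp.toLp 2 fun i : Fin d => x i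

theorem toSeq_fin {d : ℕ} (x : EuclideanSpace ℝ (Fin d)) (i : Fin d) : toSeq x i = x i := by
  simp [toSeq]

theorem ofSeq_apply {d : ℕ} (x : ℕ → ℝ) (i : Fin d) : ofSeq d x i = x i := rfl

theorem ofSeq_toSeq {d : ℕ} (x : EuclideanSpace ℝ (Fin d)) : ofSeq d (toSeq x) = x := by
  ext i
  rw [ofSeq_apply, toSeq_fin]

theorem norm_ofSeq {d : ℕ} (x : ℕ → ℝ) : ‖ofSeq d x‖ = 1 ↔ ssq d x = 1 := by
  rw [EuclideanSpace.norm_eq, Real.sqrt_eq_one, ssq, ← Fin.sum_univ_eq_sum_range (fun i => x i ^ 2)]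
  simp [ofSeq_apply]

theorem tri_ofSeq {d : ℕ} (T : List (List (List ℚ))) (x y z : ℕ → ℝ) :
    tri d T (ofSeq d x) (ofSeq d y) (ofSeq d z) = trin d (ent T) x y z := by
  unfold tri trin ent
  simp only [ofSeq_apply, Finset.sum_range]

theorem lt_specNorm_iff {d : ℕ} (T : List (List (List ℚ))) {σ : ℝ} (hσ : 0 ≤ σ) :
    σ < specNorm d T ↔ ∃ x y z : ℕ → ℝ, ssq d x = 1 ∧ ssq d y = 1 ∧ ssq d z = 1 ∧
      σ < |trin d (ent T) x y z| := by
  set A : Set ℝ := {r : ℝ | ∃ x y z : EuclideanSpace ℝ (Fin d),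
    ‖x‖ = 1 ∧ ‖y‖ = 1 ∧ ‖z‖ = 1 ∧ r = |tri d T x y z|} with hA
  have hb : BddAbove A := by
    refine ⟨∑ i : Fin d, ∑ j : Fin d, ∑ k : Fin d, |(entry T i j k : ℝ)|, ?_⟩
    rintro r ⟨x, y, z, hx, hy, hz, rfl⟩
    have hc : ∀ w : EuclideanSpace ℝ (Fin d), ‖w‖ = 1 → ∀ i, |w i| ≤ 1 := by
      intro w hw i
      rw [← hw, ← Real.norm_eq_abs]
      exact PiLp.norm_apply_le w i
    unfold tri
    refine (Finset.abs_sum_le_sum_abs _ _).trans (Finset.sum_le_sum fun i _ => ?_)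
    refine (Finset.abs_sum_le_sum_abs _ _).trans (Finset.sum_le_sum fun j _ => ?_)
    refine (Finset.abs_sum_le_sum_abs _ _).trans (Finset.sum_le_sum fun k _ => ?_)
    rw [abs_mul, abs_mul, abs_mul]
    have h1 := hc x hx i
    have h2 := hc y hy j
    have h3 := hc z hz k
    have h0 := abs_nonneg (entry T i j k : ℝ)
    calc |(entry T i j k : ℝ)| * |x i| * |y j| * |z k| ≤ |(entry T i j k : ℝ)| * 1 * 1 * 1 := by
          gcongr
      _ = _ := by ring
  constructor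
  · intro h
    rcases A.eq_empty_or_nonempty with h0 | h0
    · exfalso
      change σ < sSup A at h
      rw [h0, Real.sSup_empty] at h
      linarith
    · obtain ⟨r, ⟨x, y, z, hx, hy, hz, rfl⟩, hr⟩ := (lt_csSup_iff hb h0).1 h
      refine ⟨toSeq x, toSeq y, toSeq z, ?_, ?_, ?_, ?_⟩
      · rw [← norm_ofSeq, ofSeq_toSeq, hx]
      · rw [← norm_ofSeq, ofSeq_toSeq, hy]
      · rw [← norm_ofSeq, ofSeq_toSeq, hz]
      · rwa [← tri_ofSeq, ofSeq_toSeq, ofSeq_toSeq, ofSeq_toSeq]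
  · rintro ⟨x, y, z, hx, hy, hz, h⟩
    refine h.trans_le (le_csSup hb ⟨ofSeq d x, ofSeq d y, ofSeq d z, (norm_ofSeq x).2 hx,
      (norm_ofSeq y).2 hy, (norm_ofSeq z).2 hz, by rw [tri_ofSeq]⟩)

theorem isSingularValue_iff {d : ℕ} (T : List (List (List ℚ))) (σ : ℝ) :
    IsSingularValue d T σ ↔ SVN d (ent T) σ := by
  constructor
  · rintro ⟨x, y, z, hx, hy, hz, h1, h2, h3⟩
    refine ⟨toSeq x, toSeq y, toSeq z, ?_, ?_, ?_, ?_, ?_, ?_⟩
    · rw [← norm_ofSeq, ofSeq_toSeq, hx]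
    · rw [← norm_ofSeq, ofSeq_toSeq, hy]
    · rw [← norm_ofSeq, ofSeq_toSeq, hz]
    · intro i hi
      have := h1 ⟨i, hi⟩
      simp only [Finset.sum_range, toSeq_fin, ent]
      rw [show toSeq x i = x ⟨i, hi⟩ from toSeq_fin x ⟨i, hi⟩]
      exact this
    · intro i hi
      have := h2 ⟨i, hi⟩
      simp only [Finset.sum_range, toSeq_fin, ent]
      rw [show toSeq y i = y ⟨i, hi⟩ from toSeq_fin y ⟨i, hi⟩]
      exact this
    · intro i hi
      have := h3 ⟨i, hi⟩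
      simp only [Finset.sum_range, toSeq_fin, ent]
      rw [show toSeq z i = z ⟨i, hi⟩ from toSeq_fin z ⟨i, hi⟩]
      exact this
  · rintro ⟨x, y, z, hx, hy, hz, h1, h2, h3⟩
    refine ⟨ofSeq d x, ofSeq d y, ofSeq d z, (norm_ofSeq x).2 hx, (norm_ofSeq y).2 hy,
      (norm_ofSeq z).2 hz, fun i => ?_, fun i => ?_, fun i => ?_⟩
    · have := h1 i i.2
      simpa only [Finset.sum_range, ent, ofSeq_apply] using this
    · have := h2 i i.2
      simpa only [Finset.sum_range, ent, ofSeq_apply] using this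
    · have := h3 i i.2
      simpa only [Finset.sum_range, ent, ofSeq_apply] using this

end Pool.Agent.H238Z.Tens
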