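import Pool.Agent.H238Z.TensPoly

/-! Membership in the existential and universal classes. -/

namespace Pool.Agent.H238Z.Tens

open Finset Pool.Agent.NPC Pool.Agent.NPC.ER Pool.Agent.NPC.H612

/-- The term of a rational number, using a variable for the inverse of the denominator. -/
def ratT (q : ℚ) : Tm := Tm.mul (intT q.num) (Tm.var (4 * q.den + 3))

/-- The variable for the inverse of the denominator is correct. -/
def okF (q : ℚ) : Fm := Fm.eq (Tm.mul (intT (q.den : ℤ)) (Tm.var (4 * q.den + 3))) Tm.one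

theorem eval_ratT {v : ℕ → ℝ} {q : ℚ} (h : (okF q).Holds v) : (ratT q).eval v = q := by
  simp only [okF, Fm.Holds, Tm.eval, eval_intT, Int.cast_natCast] at h
  simp only [ratT, Tm.eval, eval_intT]
  have h0 : (q.den : ℝ) ≠ 0 := by exact_mod_cast q.den_nz
  have h2 : (q : ℝ) = q.num / q.den := by exact_mod_cast (Rat.num_div_den q).symm
  rw [h2, eq_div_iff h0]
  linear_combination (q.num : ℝ) * h

/-- Sum over a range of terms. -/
def sumR (L : ℕ) (f : ℕ → Tm) : Tm := sumT ((List.range L).map f)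

theorem eval_sumR (v : ℕ → ℝ) (L : ℕ) (f : ℕ → Tm) :
    (sumR L f).eval v = ∑ i ∈ range L, (f i).eval v := by
  rw [sumR, eval_sumT, List.map_map, sum_range_list]
  rfl

/-- Conjunction over a range. -/
def conjR (L : ℕ) (f : ℕ → Fm) : Fm := conj ((List.range L).map f)

theorem holds_conjR (v : ℕ → ℝ) (L : ℕ) (f : ℕ → Fm) :
    (conjR L f).Holds v ↔ ∀ i < L, (f i).Holds v := by
  simp [conjR, holds_conj]

/-- Unit norm of the vector with residue `c`. -/
def unitF (L c : ℕ) : Fm :=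
  Fm.eq (sumR L fun i => Tm.mul (Tm.var (4 * i + c)) (Tm.var (4 * i + c))) Tm.one

theorem holds_unitF (v : ℕ → ℝ) (L c : ℕ) :
    (unitF L c).Holds v ↔ ssq L (fun i => v (4 * i + c)) = 1 := by
  simp only [unitF, Fm.Holds, eval_sumR, Tm.eval, ssq, sq]

/-- The common part of the formulas. -/
def baseF (I : Inst) : Fm :=
  Fm.and (unitF I.2.1.length 0) (Fm.and (unitF I.2.1.length 1) (Fm.and (unitF I.2.1.length 2)
    (Fm.and (okF I.2.2) (conjR I.2.1.length fun i => conjR I.2.1.length fun j =>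
      conjR I.2.1.length fun k => okF (entry I.2.1 i j k)))))

/-- A product of an entry and two variables. -/
def monT (q : ℚ) (a b : ℕ) : Tm := Tm.mul (Tm.mul (ratT q) (Tm.var a)) (Tm.var b)

/-- The trilinear term. -/
def triT (I : Inst) : Tm :=
  sumR I.2.1.length fun i => sumR I.2.1.length fun j => sumR I.2.1.length fun k =>
    Tm.mul (monT (entry I.2.1 i j k) (4 * i + 0) (4 * j + 1)) (Tm.var (4 * k + 2))

/-- The formula for exceeding the bound. -/
def exF (I : Inst) : Fm :=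
  Fm.and (baseF I) (Fm.or (Fm.lt (ratT I.2.2) (triT I)) (Fm.lt (ratT I.2.2) (Tm.neg (triT I))))

/-- The formula for singular values. -/
def svF (I : Inst) : Fm :=
  Fm.and (baseF I) (Fm.and
    (conjR I.2.1.length fun i => Fm.eq (sumR I.2.1.length fun j => sumR I.2.1.length fun k =>
      monT (entry I.2.1 i j k) (4 * j + 1) (4 * k + 2)) (Tm.mul (ratT I.2.2) (Tm.var (4 * i + 0))))
    (Fm.and
    (conjR I.2.1.length fun j => Fm.eq (sumR I.2.1.length fun i => sumR I.2.1.length fun k =>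
      monT (entry I.2.1 i j k) (4 * i + 0) (4 * k + 2)) (Tm.mul (ratT I.2.2) (Tm.var (4 * j + 1))))
    (conjR I.2.1.length fun k => Fm.eq (sumR I.2.1.length fun i => sumR I.2.1.length fun j =>
      monT (entry I.2.1 i j k) (4 * i + 0) (4 * j + 1)) (Tm.mul (ratT I.2.2) (Tm.var (4 * k + 2))))))

/-- The assignment of three vectors. -/
noncomputable def asg (x y z : ℕ → ℝ) (n : ℕ) : ℝ :=
  if n % 4 = 0 then x (n / 4) else if n % 4 = 1 then y (n / 4) else if n % 4 = 2 then z (n / 4)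
  else ((n / 4 : ℕ) : ℝ)⁻¹

theorem asg0 (x y z : ℕ → ℝ) (i : ℕ) : asg x y z (4 * i + 0) = x i := by
  have e1 : (4 * i + 0) % 4 = 0 := by omega
  have e2 : (4 * i + 0) / 4 = i := by omega
  simp only [asg, e1, e2, if_true]

theorem asg1 (x y z : ℕ → ℝ) (i : ℕ) : asg x y z (4 * i + 1) = y i := by
  have e1 : (4 * i + 1) % 4 = 1 := by omega
  have e2 : (4 * i + 1) / 4 = i := by omega
  simp [asg, e1, e2]

theorem asg2 (x y z : ℕ → ℝ) (i : ℕ) : asg x y z (4 * i + 2) = z i := by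
  have e1 : (4 * i + 2) % 4 = 2 := by omega
  have e2 : (4 * i + 2) / 4 = i := by omega
  simp [asg, e1, e2]

theorem ok_asg (x y z : ℕ → ℝ) (q : ℚ) : (okF q).Holds (asg x y z) := by
  have e1 : (4 * q.den + 3) % 4 = 3 := by omega
  have e2 : (4 * q.den + 3) / 4 = q.den := by omega
  have h0 : (q.den : ℝ) ≠ 0 := by exact_mod_cast q.den_nz
  simp only [okF, Fm.Holds, Tm.eval, eval_intT, Int.cast_natCast, asg, e1, e2]
  simp [h0]

theorem holds_baseF (I : Inst) (v : ℕ → ℝ) : (baseF I).Holds v ↔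
    ssq I.2.1.length (fun i => v (4 * i + 0)) = 1 ∧ ssq I.2.1.length (fun i => v (4 * i + 1)) = 1 ∧
    ssq I.2.1.length (fun i => v (4 * i + 2)) = 1 ∧ (okF I.2.2).Holds v ∧
    ∀ i < I.2.1.length, ∀ j < I.2.1.length, ∀ k < I.2.1.length,
      (okF (entry I.2.1 i j k)).Holds v := by
  simp only [baseF, Fm.Holds, holds_unitF, holds_conjR]

theorem base_asg (I : Inst) {x y z : ℕ → ℝ} (hx : ssq I.2.1.length x = 1)
    (hy : ssq I.2.1.length y = 1) (hz : ssq I.2.1.length z = 1) :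
    (baseF I).Holds (asg x y z) := by
  rw [holds_baseF]
  simp only [asg0, asg1, asg2]
  exact ⟨hx, hy, hz, ok_asg _ _ _ _, fun _ _ _ _ _ _ => ok_asg _ _ _ _⟩

theorem eval_monT {v : ℕ → ℝ} {q : ℚ} (h : (okF q).Holds v) (a b : ℕ) :
    (monT q a b).eval v = q * v a * v b := by
  simp only [monT, Tm.eval, eval_ratT h]

theorem eval_triT {I : Inst} {v : ℕ → ℝ} (h : (baseF I).Holds v) : (triT I).eval v =
    trin I.2.1.length (ent I.2.1) (fun i => v (4 * i + 0)) (fun i => v (4 * i + 1))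
      (fun i => v (4 * i + 2)) := by
  obtain ⟨-, -, -, -, h5⟩ := (holds_baseF I v).1 h
  simp only [triT, eval_sumR, trin]
  refine Finset.sum_congr rfl fun i hi => Finset.sum_congr rfl fun j hj =>
    Finset.sum_congr rfl fun k hk => ?_
  rw [Tm.eval, eval_monT (h5 i (Finset.mem_range.1 hi) j (Finset.mem_range.1 hj) k
    (Finset.mem_range.1 hk))]
  rfl

theorem etr_exF {I : Inst} (hI : Valid I) :
    (I.2.2 : ℝ) < specNorm I.1 I.2.1 ↔ ETR (exF I) := by
  have hσ : (0 : ℝ) ≤ (I.2.2 : ℝ) := by exact_mod_cast hI.2.le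
  rw [lt_specNorm_iff _ hσ, ← hI.1.1]
  constructor
  · rintro ⟨x, y, z, hx, hy, hz, h⟩
    have hb := base_asg I hx hy hz
    refine ⟨asg x y z, hb, ?_⟩
    simp only [Fm.Holds, Tm.eval, eval_triT hb, eval_ratT (ok_asg x y z _), asg0, asg1, asg2]
    exact lt_abs.1 h
  · rintro ⟨v, hb, h⟩
    obtain ⟨h1, h2, h3, h4, -⟩ := (holds_baseF I v).1 hb
    simp only [Fm.Holds, Tm.eval, eval_triT hb, eval_ratT h4] at h
    exact ⟨_, _, _, h1, h2, h3, lt_abs.2 h⟩

theorem etr_svF {I : Inst} (hI : Valid I) :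
    IsSingularValue I.1 I.2.1 (I.2.2 : ℝ) ↔ ETR (svF I) := by
  rw [isSingularValue_iff, ← hI.1.1]
  constructor
  · rintro ⟨x, y, z, hx, hy, hz, h1, h2, h3⟩
    have hb := base_asg I hx hy hz
    refine ⟨asg x y z, hb, ?_⟩
    simp only [Fm.Holds, holds_conjR, Tm.eval, eval_sumR, eval_monT (ok_asg x y z _),
      eval_ratT (ok_asg x y z _), asg0, asg1, asg2]
    exact ⟨h1, h2, h3⟩
  · rintro ⟨v, hb, h⟩
    obtain ⟨h1, h2, h3, h4, h5⟩ := (holds_baseF I v).1 hb
    simp only [Fm.Holds, holds_conjR, Tm.eval, eval_sumR, eval_ratT h4] at h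
    obtain ⟨a1, a2, a3⟩ := h
    refine ⟨_, _, _, h1, h2, h3, fun i hi => ?_, fun j hj => ?_, fun k hk => ?_⟩
    · rw [← a1 i hi]
      exact Finset.sum_congr rfl fun j hj => Finset.sum_congr rfl fun k hk =>
        (eval_monT (h5 i hi j (Finset.mem_range.1 hj) k (Finset.mem_range.1 hk)) _ _).symm
    · rw [← a2 j hj]
      exact Finset.sum_congr rfl fun i hi => Finset.sum_congr rfl fun k hk =>
        (eval_monT (h5 i (Finset.mem_range.1 hi) j hj k (Finset.mem_range.1 hk)) _ _).symm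
    · rw [← a3 k hk]
      exact Finset.sum_congr rfl fun i hi => Finset.sum_congr rfl fun j hj =>
        (eval_monT (h5 i (Finset.mem_range.1 hi) j (Finset.mem_range.1 hj) k hk) _ _).symm

/-- The validity test. -/
def validB (I : Inst) : Bool :=
  decide (I.2.1.length = I.1) &&
    (I.2.1.all fun M => decide (M.length = I.1) && M.all fun r => decide (r.length = I.1)) &&
    decide (0 < I.2.2.num)

theorem validB_iff (I : Inst) : validB I = true ↔ Valid I := by
  simp [validB, Valid, IsCube, Rat.num_pos, and_assoc]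

section

variable {α : Type} [TEnc α]

theorem poly_num {q : α → ℚ} (hq : NPC.Poly q) : NPC.Poly (fun a => (q a).num) := by
  have h : NPC.Poly (fun a => (((q a).num, (q a).den) : ℤ × ℕ)) := hq
  exact NPC.Poly.fst h

theorem poly_den {q : α → ℚ} (hq : NPC.Poly q) : NPC.Poly (fun a => (q a).den) := by
  have h : NPC.Poly (fun a => (((q a).num, (q a).den) : ℤ × ℕ)) := hq
  exact NPC.Poly.snd h

theorem poly_lin {i : α → ℕ} (hi : NPC.Poly i) (c : ℕ) : NPC.Poly (fun a => 4 * i a + c) :=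
  NPC.Poly.add (NPC.Poly.mul (NPC.Poly.const 4) hi) (NPC.Poly.const c)

theorem poly_ratT {q : α → ℚ} (hq : NPC.Poly q) : NPC.Poly (fun a => ratT (q a)) :=
  poly_tmul (poly_intT (poly_num hq)) (poly_tvar (poly_lin (poly_den hq) 3))

theorem poly_okF {q : α → ℚ} (hq : NPC.Poly q) : NPC.Poly (fun a => okF (q a)) :=
  poly_feq (poly_tmul (poly_intT (NPC.Poly.natCast (poly_den hq))) (poly_tvar (poly_lin (poly_den hq) 3)))
    (NPC.Poly.const _)

theorem poly_sumR {L : α → ℕ} {f : α → ℕ → Tm} (hL : UPoly L)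
    (hf : NPC.Poly (fun p : α × ℕ => f p.1 p.2)) : NPC.Poly (fun a => sumR (L a) (f a)) :=
  poly_sumT (NPC.Poly.map hL.range hf)

theorem poly_conjR {L : α → ℕ} {f : α → ℕ → Fm} (hL : UPoly L)
    (hf : NPC.Poly (fun p : α × ℕ => f p.1 p.2)) : NPC.Poly (fun a => conjR (L a) (f a)) :=
  poly_conj (NPC.Poly.map hL.range hf)

theorem poly_unitF {L : α → ℕ} (hL : UPoly L) (c : ℕ) : NPC.Poly (fun a => unitF (L a) c) :=
  poly_feq (poly_sumR (f := fun _ i => Tm.mul (Tm.var (4 * i + c)) (Tm.var (4 * i + c))) hL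
    (poly_tmul (poly_tvar (poly_lin (NPC.Poly.snd NPC.Poly.id) c))
      (poly_tvar (poly_lin (NPC.Poly.snd NPC.Poly.id) c)))) (NPC.Poly.const _)

theorem poly_entry {T : α → List (List (List ℚ))} {i j k : α → ℕ} (hT : NPC.Poly T) (hi : NPC.Poly i)
    (hj : NPC.Poly j) (hk : NPC.Poly k) : NPC.Poly (fun a => entry (T a) (i a) (j a) (k a)) :=
  NPC.Poly.getD (NPC.Poly.getD (NPC.Poly.getD hT hi (NPC.Poly.const _)) hj (NPC.Poly.const _)) hk (NPC.Poly.const _)

theorem poly_monT {q : α → ℚ} {a b : α → ℕ} (hq : NPC.Poly q) (ha : NPC.Poly a) (hb : NPC.Poly b) :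
    NPC.Poly (fun x => monT (q x) (a x) (b x)) :=
  poly_tmul (poly_tmul (poly_ratT hq) (poly_tvar ha)) (poly_tvar hb)

end

theorem uL : UPoly (fun I : Inst => I.2.1.length) := UPoly.length (NPC.Poly.fst (NPC.Poly.snd NPC.Poly.id))

theorem uL1 : UPoly (fun y : Inst × ℕ => y.1.2.1.length) := uL.comp (NPC.Poly.fst NPC.Poly.id)

theorem uL2 : UPoly (fun y : (Inst × ℕ) × ℕ => y.1.1.2.1.length) := uL1.comp (NPC.Poly.fst NPC.Poly.id)

theorem pT3 : NPC.Poly (fun y : ((Inst × ℕ) × ℕ) × ℕ => y.1.1.1.2.1) :=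
  NPC.Poly.fst (NPC.Poly.snd (NPC.Poly.fst (NPC.Poly.fst (NPC.Poly.fst NPC.Poly.id))))

theorem pa3 : NPC.Poly (fun y : ((Inst × ℕ) × ℕ) × ℕ => y.1.1.2) := NPC.Poly.snd (NPC.Poly.fst (NPC.Poly.fst NPC.Poly.id))

theorem pb3 : NPC.Poly (fun y : ((Inst × ℕ) × ℕ) × ℕ => y.1.2) := NPC.Poly.snd (NPC.Poly.fst NPC.Poly.id)

theorem pc3 : NPC.Poly (fun y : ((Inst × ℕ) × ℕ) × ℕ => y.2) := NPC.Poly.snd NPC.Poly.id

theorem pσ : NPC.Poly (fun I : Inst => I.2.2) := NPC.Poly.snd (NPC.Poly.snd NPC.Poly.id)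

theorem poly_baseF : NPC.Poly baseF := by
  refine poly_fand (poly_unitF uL 0) (poly_fand (poly_unitF uL 1) (poly_fand (poly_unitF uL 2)
    (poly_fand (poly_okF pσ) ?_)))
  refine poly_conjR (f := fun (I : Inst) i => conjR I.2.1.length fun j =>
      conjR I.2.1.length fun k => okF (entry I.2.1 i j k)) uL ?_
  refine poly_conjR (f := fun (y : Inst × ℕ) j =>
      conjR y.1.2.1.length fun k => okF (entry y.1.2.1 y.2 j k)) uL1 ?_
  refine poly_conjR (f := fun (y : (Inst × ℕ) × ℕ) k => okF (entry y.1.1.2.1 y.1.2 y.2 k)) uL2 ?_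
  exact poly_okF (poly_entry pT3 pa3 pb3 pc3)

theorem poly_triT : NPC.Poly triT := by
  refine poly_sumR (f := fun (I : Inst) i => sumR I.2.1.length fun j => sumR I.2.1.length fun k =>
    Tm.mul (monT (entry I.2.1 i j k) (4 * i + 0) (4 * j + 1)) (Tm.var (4 * k + 2))) uL ?_
  refine poly_sumR (f := fun (y : Inst × ℕ) j => sumR y.1.2.1.length fun k =>
    Tm.mul (monT (entry y.1.2.1 y.2 j k) (4 * y.2 + 0) (4 * j + 1)) (Tm.var (4 * k + 2))) uL1 ?_
  refine poly_sumR (f := fun (y : (Inst × ℕ) × ℕ) k =>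
    Tm.mul (monT (entry y.1.1.2.1 y.1.2 y.2 k) (4 * y.1.2 + 0) (4 * y.2 + 1))
      (Tm.var (4 * k + 2))) uL2 ?_
  exact poly_tmul (poly_monT (poly_entry pT3 pa3 pb3 pc3) (poly_lin pa3 0) (poly_lin pb3 1))
    (poly_tvar (poly_lin pc3 2))

theorem poly_exF : NPC.Poly exF :=
  poly_fand poly_baseF (poly_for (poly_flt (poly_ratT pσ) poly_triT)
    (poly_flt (poly_ratT pσ) (poly_tneg poly_triT)))

theorem poly_svF : NPC.Poly svF := by
  have hr : ∀ c : ℕ, NPC.Poly (fun y : Inst × ℕ => Tm.mul (ratT y.1.2.2) (Tm.var (4 * y.2 + c))) :=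
    fun c => poly_tmul (poly_ratT (pσ.comp (NPC.Poly.fst NPC.Poly.id)))
      (poly_tvar (poly_lin (NPC.Poly.snd NPC.Poly.id) c))
  refine poly_fand poly_baseF (poly_fand ?_ (poly_fand ?_ ?_))
  · refine poly_conjR (f := fun (I : Inst) i => Fm.eq (sumR I.2.1.length fun j =>
      sumR I.2.1.length fun k => monT (entry I.2.1 i j k) (4 * j + 1) (4 * k + 2))
      (Tm.mul (ratT I.2.2) (Tm.var (4 * i + 0)))) uL (poly_feq ?_ (hr 0))
    refine poly_sumR (f := fun (y : Inst × ℕ) j => sumR y.1.2.1.length fun k =>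
      monT (entry y.1.2.1 y.2 j k) (4 * j + 1) (4 * k + 2)) uL1 ?_
    refine poly_sumR (f := fun (y : (Inst × ℕ) × ℕ) k =>
      monT (entry y.1.1.2.1 y.1.2 y.2 k) (4 * y.2 + 1) (4 * k + 2)) uL2 ?_
    exact poly_monT (poly_entry pT3 pa3 pb3 pc3) (poly_lin pb3 1) (poly_lin pc3 2)
  · refine poly_conjR (f := fun (I : Inst) j => Fm.eq (sumR I.2.1.length fun i =>
      sumR I.2.1.length fun k => monT (entry I.2.1 i j k) (4 * i + 0) (4 * k + 2))
      (Tm.mul (ratT I.2.2) (Tm.var (4 * j + 1)))) uL (poly_feq ?_ (hr 1))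
    refine poly_sumR (f := fun (y : Inst × ℕ) i => sumR y.1.2.1.length fun k =>
      monT (entry y.1.2.1 i y.2 k) (4 * i + 0) (4 * k + 2)) uL1 ?_
    refine poly_sumR (f := fun (y : (Inst × ℕ) × ℕ) k =>
      monT (entry y.1.1.2.1 y.2 y.1.2 k) (4 * y.2 + 0) (4 * k + 2)) uL2 ?_
    exact poly_monT (poly_entry pT3 pb3 pa3 pc3) (poly_lin pb3 0) (poly_lin pc3 2)
  · refine poly_conjR (f := fun (I : Inst) k => Fm.eq (sumR I.2.1.length fun i =>
      sumR I.2.1.length fun j => monT (entry I.2.1 i j k) (4 * i + 0) (4 * j + 1))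
      (Tm.mul (ratT I.2.2) (Tm.var (4 * k + 2)))) uL (poly_feq ?_ (hr 2))
    refine poly_sumR (f := fun (y : Inst × ℕ) i => sumR y.1.2.1.length fun j =>
      monT (entry y.1.2.1 i j y.2) (4 * i + 0) (4 * j + 1)) uL1 ?_
    refine poly_sumR (f := fun (y : (Inst × ℕ) × ℕ) j =>
      monT (entry y.1.1.2.1 y.2 j y.1.2) (4 * y.2 + 0) (4 * j + 1)) uL2 ?_
    exact poly_monT (poly_entry pT3 pb3 pc3 pa3) (poly_lin pb3 0) (poly_lin pc3 1)

theorem poly_validB : NPC.Poly validB := by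
  refine NPC.Poly.and (NPC.Poly.and (NPC.Poly.decide_eq uL.toPoly (NPC.Poly.fst NPC.Poly.id)) ?_)
    (NPC.Poly.ilt (NPC.Poly.const 0) (poly_num pσ))
  refine NPC.Poly.all (p := fun (I : Inst) (M : List (List ℚ)) =>
    decide (M.length = I.1) && M.all fun r => decide (r.length = I.1))
    (NPC.Poly.fst (NPC.Poly.snd NPC.Poly.id)) ?_
  refine NPC.Poly.and (NPC.Poly.decide_eq (NPC.Poly.length (NPC.Poly.snd NPC.Poly.id)) (NPC.Poly.fst (NPC.Poly.fst NPC.Poly.id))) ?_
  refine NPC.Poly.all (p := fun (y : Inst × List (List ℚ)) (r : List ℚ) => decide (r.length = y.1.1))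
    (NPC.Poly.snd NPC.Poly.id) ?_
  exact NPC.Poly.decide_eq (NPC.Poly.length (NPC.Poly.snd NPC.Poly.id)) (NPC.Poly.fst (NPC.Poly.fst (NPC.Poly.fst NPC.Poly.id)))

theorem mem_exceed : InER (lang NormExceed) := by
  refine InER.of_poly (φ := fun I => bif validB I then exF I else Fm.ff)
    (NPC.Poly.cond poly_validB poly_exF (NPC.Poly.const _)) fun I => ?_
  by_cases h : Valid I
  · rw [(validB_iff I).2 h, cond_true, ← etr_exF h]
    exact ⟨fun h' => h'.2, fun h' => ⟨h, h'⟩⟩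
  · have : validB I = false := by simpa [← validB_iff] using h
    rw [this, cond_false]
    exact ⟨fun h' => absurd h'.1 h, fun h' => absurd h' not_ETR_ff⟩

theorem mem_bound : InAR (lang NormBound) := by
  refine InAR.of_poly (φ := fun I => bif validB I then exF I else tt)
    (NPC.Poly.cond poly_validB poly_exF (NPC.Poly.const _)) fun I => ?_
  by_cases h : Valid I
  · rw [(validB_iff I).2 h, cond_true, ← etr_exF h]
    simp [NormBound, h]
  · have : validB I = false := by simpa [← validB_iff] using h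
    rw [this, cond_false]
    exact ⟨fun _ => ⟨fun _ => 0, holds_tt _⟩, fun _ h' => h h'.1⟩

theorem mem_tsv : InER (lang TSV) := by
  refine InER.of_poly (φ := fun I => bif validB I then svF I else Fm.ff)
    (NPC.Poly.cond poly_validB poly_svF (NPC.Poly.const _)) fun I => ?_
  by_cases h : Valid I
  · rw [(validB_iff I).2 h, cond_true, ← etr_svF h]
    exact ⟨fun h' => h'.2, fun h' => ⟨h, h'⟩⟩
  · have : validB I = false := by simpa [← validB_iff] using h
    rw [this, cond_false]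
    exact ⟨fun h' => absurd h'.1 h, fun h' => absurd h' not_ETR_ff⟩

end Pool.Agent.H238Z.Tens
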