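import Pool.Agent.H238Z.TensSys
import Pool.Agent.H612.AR
import Pool.Agent.H687R2.IntPoly
import Pool.Agent.ER.Rat

/-! Polynomial time of the reductions, and membership. -/

namespace Pool.Agent.H238Z.Tens

open Finset Pool.Agent.NPC Pool.Agent.NPC.ER Pool.Agent.NPC.H612

section

variable {α : Type} [TEnc α]

theorem poly_coef {l : α → Form} {a b : α → ℕ} (hl : NPC.Poly l) (ha : NPC.Poly a) (hb : NPC.Poly b) :
    NPC.Poly (fun x => coef (l x) (a x) (b x)) := by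
  refine NPC.Poly.isum (NPC.Poly.map (F := fun x (m : ℕ × ℕ × ℤ) =>
    if m.1 = a x ∧ m.2.1 = b x then m.2.2 else 0) hl ?_)
  exact NPC.Poly.ite (NPC.Poly.decide_and
    (NPC.Poly.decide_eq (NPC.Poly.fst (NPC.Poly.snd NPC.Poly.id)) (ha.comp (NPC.Poly.fst NPC.Poly.id)))
    (NPC.Poly.decide_eq (NPC.Poly.fst (NPC.Poly.snd (NPC.Poly.snd NPC.Poly.id))) (hb.comp (NPC.Poly.fst NPC.Poly.id))))
    (NPC.Poly.snd (NPC.Poly.snd (NPC.Poly.snd NPC.Poly.id))) (NPC.Poly.const 0)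

theorem poly_pairs {D : α → ℕ} (hD : UPoly D) : NPC.Poly (fun x => pairs (D x)) := by
  refine NPC.Poly.flatMap (F := fun x a => (List.range (D x)).map fun b => (a, b)) hD.range ?_
  exact NPC.Poly.map (F := fun (p : α × ℕ) b => (p.2, b)) (hD.range.comp (NPC.Poly.fst NPC.Poly.id))
    (NPC.Poly.pair (NPC.Poly.snd (NPC.Poly.fst NPC.Poly.id)) (NPC.Poly.snd NPC.Poly.id))

theorem poly_lag {D : α → ℕ} {e : α → Form} (hD : UPoly D) (he : NPC.Poly e) :
    NPC.Poly (fun x => lag (D x) (e x)) := by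
  refine NPC.Poly.flatMap (F := fun x (p : ℕ × ℕ) => (pairs (D x)).map fun q =>
    ([(q.1, q.2, 6 * coef (e x) p.1 p.2), (p.1, p.2, -6 * coef (e x) q.1 q.2)] : Form))
    (poly_pairs hD) ?_
  refine NPC.Poly.map (F := fun (y : α × ℕ × ℕ) (q : ℕ × ℕ) =>
    ([(q.1, q.2, 6 * coef (e y.1) y.2.1 y.2.2), (y.2.1, y.2.2, -6 * coef (e y.1) q.1 q.2)] : Form))
    ((poly_pairs hD).comp (NPC.Poly.fst NPC.Poly.id)) ?_
  have h0 : NPC.Poly (fun y : (α × ℕ × ℕ) × ℕ × ℕ => e y.1.1) := he.comp (NPC.Poly.fst (NPC.Poly.fst NPC.Poly.id))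
  have p1 : NPC.Poly (fun y : (α × ℕ × ℕ) × ℕ × ℕ => y.1.2.1) := NPC.Poly.fst (NPC.Poly.snd (NPC.Poly.fst NPC.Poly.id))
  have p2 : NPC.Poly (fun y : (α × ℕ × ℕ) × ℕ × ℕ => y.1.2.2) := NPC.Poly.snd (NPC.Poly.snd (NPC.Poly.fst NPC.Poly.id))
  have q1 : NPC.Poly (fun y : (α × ℕ × ℕ) × ℕ × ℕ => y.2.1) := NPC.Poly.fst (NPC.Poly.snd NPC.Poly.id)
  have q2 : NPC.Poly (fun y : (α × ℕ × ℕ) × ℕ × ℕ => y.2.2) := NPC.Poly.snd (NPC.Poly.snd NPC.Poly.id)
  exact NPC.Poly.cons (q1.pair (q2.pair (NPC.Poly.imul (NPC.Poly.const 6) (poly_coef h0 p1 p2))))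
    (NPC.Poly.cons (p1.pair (p2.pair (NPC.Poly.imul (NPC.Poly.const (-6)) (poly_coef h0 q1 q2))))
      (NPC.Poly.const []))

theorem poly_nrm {D : α → ℕ} {e : α → Form} (hD : UPoly D) (he : NPC.Poly e) :
    NPC.Poly (fun x => nrm (D x) (e x)) := by
  refine NPC.Poly.isum (NPC.Poly.map (F := fun x (p : ℕ × ℕ) => coef (e x) p.1 p.2 * coef (e x) p.1 p.2)
    (poly_pairs hD) ?_)
  have h := poly_coef (he.comp (NPC.Poly.fst (NPC.Poly.id (α := α × ℕ × ℕ))))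
    (NPC.Poly.fst (NPC.Poly.snd NPC.Poly.id)) (NPC.Poly.snd (NPC.Poly.snd NPC.Poly.id))
  exact NPC.Poly.imul h h

theorem poly_pad {D : α → ℕ} {s : α → ℤ} (hD : UPoly D) (hs : NPC.Poly s) :
    NPC.Poly (fun x => pad (D x) (s x)) := by
  refine NPC.Poly.map (F := fun x (p : ℕ × ℕ) => ([(p.1, p.2, s x)] : Form)) (poly_pairs hD) ?_
  exact NPC.Poly.cons ((NPC.Poly.fst (NPC.Poly.snd NPC.Poly.id)).pair ((NPC.Poly.snd (NPC.Poly.snd NPC.Poly.id)).pair
    (hs.comp (NPC.Poly.fst NPC.Poly.id)))) (NPC.Poly.const [])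

theorem poly_NN {D : α → ℕ} {es : α → List Form} (hD : UPoly D) (he : NPC.Poly es) :
    NPC.Poly (fun x => NN (D x) (es x)) :=
  NPC.Poly.isum (NPC.Poly.map (F := fun x e => nrm (D x) e) he
    (poly_nrm (hD.comp (NPC.Poly.fst NPC.Poly.id)) (NPC.Poly.snd NPC.Poly.id)))

theorem poly_slices {D : α → ℕ} {es ex : α → List Form} (hD : UPoly D) (he : NPC.Poly es)
    (hx : NPC.Poly ex) : NPC.Poly (fun x => slices (D x) (es x) (ex x)) :=
  NPC.Poly.append (NPC.Poly.append (NPC.Poly.flatMap (F := fun x e => lag (D x) e) he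
    (poly_lag (hD.comp (NPC.Poly.fst NPC.Poly.id)) (NPC.Poly.snd NPC.Poly.id)))
    (poly_pad hD (NPC.Poly.isub (NPC.Poly.imul (NPC.Poly.const 18) (poly_NN hD he)) (NPC.Poly.const 1)))) hx

theorem poly_intCast {z : α → ℤ} (hz : NPC.Poly z) : NPC.Poly (fun x => ((z x : ℤ) : ℚ)) := by
  have h : NPC.Poly (fun x => ((z x, 1) : ℤ × ℕ)) := hz.pair (NPC.Poly.const 1)
  exact NPC.Poly.of_toT (h.toT'.congr fun x => rfl)

theorem poly_tens {d : α → ℕ} {L : α → List Form} (hd : UPoly d) (hL : NPC.Poly L) :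
    NPC.Poly (fun x => tens (d x) (L x)) := by
  refine NPC.Poly.map (F := fun x a => (List.range (d x)).map fun b => (List.range (d x)).map fun k =>
    ((coef ((L x).getD k []) a b + coef ((L x).getD k []) b a : ℤ) : ℚ)) hd.range ?_
  refine NPC.Poly.map (F := fun (y : α × ℕ) b => (List.range (d y.1)).map fun k =>
    ((coef ((L y.1).getD k []) y.2 b + coef ((L y.1).getD k []) b y.2 : ℤ) : ℚ))
    (hd.range.comp (NPC.Poly.fst NPC.Poly.id)) ?_
  refine NPC.Poly.map (F := fun (y : (α × ℕ) × ℕ) k =>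
    ((coef ((L y.1.1).getD k []) y.1.2 y.2 + coef ((L y.1.1).getD k []) y.2 y.1.2 : ℤ) : ℚ))
    (hd.range.comp (NPC.Poly.fst (NPC.Poly.fst NPC.Poly.id))) ?_
  have h0 : NPC.Poly (fun y : ((α × ℕ) × ℕ) × ℕ => (L y.1.1.1).getD y.2 []) :=
    NPC.Poly.getD (hL.comp (NPC.Poly.fst (NPC.Poly.fst (NPC.Poly.fst NPC.Poly.id)))) (NPC.Poly.snd NPC.Poly.id) (NPC.Poly.const _)
  have ha : NPC.Poly (fun y : ((α × ℕ) × ℕ) × ℕ => y.1.1.2) := NPC.Poly.snd (NPC.Poly.fst (NPC.Poly.fst NPC.Poly.id))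
  have hb : NPC.Poly (fun y : ((α × ℕ) × ℕ) × ℕ => y.1.2) := NPC.Poly.snd (NPC.Poly.fst NPC.Poly.id)
  exact poly_intCast (NPC.Poly.iadd (poly_coef h0 ha hb) (poly_coef h0 hb ha))

theorem poly_inst {D : α → ℕ} {es ex : α → List Form} (hD : UPoly D) (he : NPC.Poly es)
    (hx : NPC.Poly ex) : NPC.Poly (fun x => inst (D x) (es x) (ex x)) := by
  have hs := poly_slices hD he hx
  have hd : UPoly (fun x => D x + (slices (D x) (es x) (ex x)).length) :=
    hD.add (UPoly.length hs)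
  exact hd.toPoly.pair ((poly_tens hd hs).pair
    (poly_intCast (NPC.Poly.iadd (NPC.Poly.imul (NPC.Poly.const 36) (poly_NN hD he)) (NPC.Poly.const 2))))

theorem conF_eq (r : ℕ → ℕ) (c : ER.Con) : conF r c =
    if c.code.1 = 0 then [(2 * r c.code.2.1 + 1, 0, 8), (0, 0, -1)]
    else if c.code.1 = 1 then [(2 * r c.code.2.1 + 1, 0, 1), (2 * r c.code.2.2.1 + 1, 0, 1),
      (2 * r c.code.2.2.2 + 1, 0, -1)]
    else [(2 * r c.code.2.1 + 1, 2 * r c.code.2.2.1 + 1, 1), (2 * r c.code.2.2.2 + 1, 0, -1)] := by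
  cases c <;> rfl

theorem poly_conF {r : α → ℕ → ℕ} {c : α → ER.Con} (hr : NPC.Poly (fun p : α × ℕ => r p.1 p.2))
    (hc : NPC.Poly c) : NPC.Poly (fun x => conF (r x) (c x)) := by
  have h0 : NPC.Poly (fun a => (c a).code) := poly_con_code hc
  have h1 : NPC.Poly (fun a => (c a).code.1) := NPC.Poly.fst h0
  have hi : NPC.Poly (fun a => 2 * r a (c a).code.2.1 + 1) :=
    NPC.Poly.succ (NPC.Poly.mul (NPC.Poly.const 2) (hr.comp (NPC.Poly.id.pair (NPC.Poly.fst (NPC.Poly.snd h0)))))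
  have hj : NPC.Poly (fun a => 2 * r a (c a).code.2.2.1 + 1) :=
    NPC.Poly.succ (NPC.Poly.mul (NPC.Poly.const 2) (hr.comp (NPC.Poly.id.pair (NPC.Poly.fst (NPC.Poly.snd (NPC.Poly.snd h0))))))
  have hk : NPC.Poly (fun a => 2 * r a (c a).code.2.2.2 + 1) :=
    NPC.Poly.succ (NPC.Poly.mul (NPC.Poly.const 2) (hr.comp (NPC.Poly.id.pair (NPC.Poly.snd (NPC.Poly.snd (NPC.Poly.snd h0))))))
  have key := NPC.Poly.ite (NPC.Poly.decide_eq h1 (NPC.Poly.const 0))
    (NPC.Poly.cons (hi.pair (NPC.Poly.const ((0, 8) : ℕ × ℤ))) (NPC.Poly.const [((0, 0, -1) : ℕ × ℕ × ℤ)]))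
    (NPC.Poly.ite (NPC.Poly.decide_eq h1 (NPC.Poly.const 1))
      (NPC.Poly.cons (hi.pair (NPC.Poly.const ((0, 1) : ℕ × ℤ)))
        (NPC.Poly.cons (hj.pair (NPC.Poly.const ((0, 1) : ℕ × ℤ)))
          (NPC.Poly.cons (hk.pair (NPC.Poly.const ((0, -1) : ℕ × ℤ))) (NPC.Poly.const []))))
      (NPC.Poly.cons (hi.pair (hj.pair (NPC.Poly.const (1 : ℤ))))
        (NPC.Poly.cons (hk.pair (NPC.Poly.const ((0, -1) : ℕ × ℤ))) (NPC.Poly.const []))))
  exact key.congr fun a => (conF_eq _ _).symm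

theorem vars_eq (c : ER.Con) : c.vars =
    if c.code.1 = 0 then [c.code.2.1] else [c.code.2.1, c.code.2.2.1, c.code.2.2.2] := by
  cases c <;> rfl

theorem poly_svars {S : α → List ER.Con} (hS : NPC.Poly S) : NPC.Poly (fun x => svars (S x)) := by
  refine NPC.Poly.flatMap (F := fun _ c => ER.Con.vars c) hS ?_
  have h0 : NPC.Poly (fun a : α × ER.Con => a.2.code) := poly_con_code (NPC.Poly.snd NPC.Poly.id)
  have key := NPC.Poly.ite (NPC.Poly.decide_eq (NPC.Poly.fst h0) (NPC.Poly.const 0))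
    (NPC.Poly.cons (NPC.Poly.fst (NPC.Poly.snd h0)) (NPC.Poly.const []))
    (NPC.Poly.cons (NPC.Poly.fst (NPC.Poly.snd h0)) (NPC.Poly.cons (NPC.Poly.fst (NPC.Poly.snd (NPC.Poly.snd h0)))
      (NPC.Poly.cons (NPC.Poly.snd (NPC.Poly.snd (NPC.Poly.snd h0))) (NPC.Poly.const []))))
  exact key.congr fun a => (vars_eq _).symm

theorem upoly_gapK {B : α → List ER.Con} (hB : NPC.Poly B) : UPoly (fun x => gapK (B x).length) :=
  UPoly.add (UPoly.mul (UPoly.const 11) (UPoly.length hB)) (UPoly.const 7)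

theorem poly_chain {K : α → ℕ} (hK : UPoly K) : NPC.Poly (fun x => chain (K x)) :=
  NPC.Poly.cons (NPC.Poly.const _) (NPC.Poly.map (F := fun _ j => ER.Con.mul j j (j + 1)) hK.range
    (poly_con_mul (NPC.Poly.snd NPC.Poly.id) (NPC.Poly.snd NPC.Poly.id) (NPC.Poly.succ (NPC.Poly.snd NPC.Poly.id))))

theorem poly_bndF {p : α → ℕ} (hp : NPC.Poly p) : NPC.Poly (fun x => bndF (p x)) := by
  have h1 : NPC.Poly (fun x => 2 * p x + 1) := NPC.Poly.succ (NPC.Poly.mul (NPC.Poly.const 2) hp)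
  have h2 : NPC.Poly (fun x => 2 * p x + 2) := NPC.Poly.add (NPC.Poly.mul (NPC.Poly.const 2) hp) (NPC.Poly.const 2)
  exact NPC.Poly.cons (h1.pair (h1.pair (NPC.Poly.const (2 : ℤ))))
    (NPC.Poly.cons (h2.pair (h2.pair (NPC.Poly.const (2 : ℤ)))) (NPC.Poly.const _))

theorem upoly_pos {B : α → List ER.Con} (hB : NPC.Poly B) :
    UPoly (fun x => (svars (B x)).length + gapK (B x).length) :=
  (UPoly.length (poly_svars hB)).add (upoly_gapK hB)

theorem poly_forms {B : α → List ER.Con} (hB : NPC.Poly B) : NPC.Poly (fun x => forms (B x)) := by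
  have hv := poly_svars hB
  refine NPC.Poly.append (NPC.Poly.append ?_ ?_) ?_
  · refine NPC.Poly.map (F := fun x c => conF (fun i => (svars (B x)).idxOf i) c) hB ?_
    refine poly_conF (r := fun (y : α × ER.Con) i => (svars (B y.1)).idxOf i) ?_ (NPC.Poly.snd NPC.Poly.id)
    exact poly_idxOf (hv.comp (NPC.Poly.fst (NPC.Poly.fst NPC.Poly.id))) (NPC.Poly.snd NPC.Poly.id)
  · refine NPC.Poly.map (F := fun x c => conF (fun j => (svars (B x)).length + j) c)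
      (poly_chain (upoly_gapK hB)) ?_
    refine poly_conF (r := fun (y : α × ER.Con) j => (svars (B y.1)).length + j) ?_
      (NPC.Poly.snd NPC.Poly.id)
    exact NPC.Poly.add ((NPC.Poly.length hv).comp (NPC.Poly.fst (NPC.Poly.fst NPC.Poly.id))) (NPC.Poly.snd NPC.Poly.id)
  · exact NPC.Poly.map (F := fun _ p => bndF p) ((upoly_pos hB).add (UPoly.const 1)).range
      (poly_bndF (NPC.Poly.snd NPC.Poly.id))

theorem upoly_dimF {B : α → List ER.Con} (hB : NPC.Poly B) : UPoly (fun x => dimF (B x)) :=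
  ((UPoly.const 2).mul ((upoly_pos hB).add (UPoly.const 1))).add (UPoly.const 1)

theorem poly_gain {B : α → List ER.Con} (hB : NPC.Poly B) : NPC.Poly (fun x => gain (B x)) :=
  NPC.Poly.cons ((NPC.Poly.succ (NPC.Poly.mul (NPC.Poly.const 2) (upoly_pos hB).toPoly)).pair
    (NPC.Poly.const ((0, 1) : ℕ × ℤ))) (NPC.Poly.const [])

end

theorem poly_redNorm : NPC.Poly redNorm :=
  poly_inst (upoly_dimF (poly_bsys NPC.Poly.id)) (poly_forms (poly_bsys NPC.Poly.id))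
    (NPC.Poly.cons (poly_gain (poly_bsys NPC.Poly.id)) (NPC.Poly.const []))

theorem poly_redSV : NPC.Poly redSV :=
  poly_inst (upoly_dimF (poly_bsys NPC.Poly.id)) (poly_forms (poly_bsys NPC.Poly.id)) (NPC.Poly.const [])

theorem hard_exceed : ERHard (lang NormExceed) := ERHard.of_sys poly_redNorm sat_iff_exceed

theorem hard_bound : ARHard (lang NormBound) := ARHard.of_sys poly_redNorm sat_iff_not_bound

theorem hard_tsv : ERHard (lang TSV) := ERHard.of_sys poly_redSV sat_iff_tsv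

end Pool.Agent.H238Z.Tens
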