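import Pool.Agent.H238Z.TensForms
import Pool.Agent.ER.GapSys

/-! The quadratic forms attached to a system of constraints. -/

namespace Pool.Agent.H238Z.Tens

open Finset Pool.Agent.NPC Pool.Agent.NPC.ER

/-- The homogenised error of a constraint; position `p` has index `2 p + 1`. -/
def conF (r : ℕ → ℕ) : ER.Con → Form
  | ER.Con.one i => [(2 * r i + 1, 0, 8), (0, 0, -1)]
  | ER.Con.add i j k => [(2 * r i + 1, 0, 1), (2 * r j + 1, 0, 1), (2 * r k + 1, 0, -1)]
  | ER.Con.mul i j k => [(2 * r i + 1, 2 * r j + 1, 1), (2 * r k + 1, 0, -1)]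

/-- The bounding form of position `p`. -/
def bndF (p : ℕ) : Form := [(2 * p + 1, 2 * p + 1, 2), (2 * p + 2, 2 * p + 2, 2), (0, 0, -1)]

/-- The squaring chain. -/
def chain (K : ℕ) : List ER.Con := ER.Con.one 0 :: (List.range K).map fun j => ER.Con.mul j j (j + 1)

/-- All forms, for a bounded system `B`. -/
def forms (B : List ER.Con) : List Form :=
  B.map (conF fun i => (svars B).idxOf i) ++
    (chain (gapK B.length)).map (conF fun j => (svars B).length + j) ++
    (List.range ((svars B).length + gapK B.length + 1)).map bndF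

/-- The number of variables. -/
def dimF (B : List ER.Con) : ℕ := 2 * ((svars B).length + gapK B.length + 1) + 1

/-- The gain. -/
def gain (B : List ER.Con) : Form := [(2 * ((svars B).length + gapK B.length) + 1, 0, 1)]

theorem evalF_conF (r : ℕ → ℕ) (c : ER.Con) {u : ℕ → ℝ} (h : u 0 = 1) :
    evalF (conF r c) u = c.err (fun i => u (2 * r i + 1)) := by
  cases c <;> simp [conF, evalF, ER.Con.err, h] <;> ring

theorem evalF_bndF (p : ℕ) (u : ℕ → ℝ) :
    evalF (bndF p) u = 2 * u (2 * p + 1) ^ 2 + 2 * u (2 * p + 2) ^ 2 - u 0 ^ 2 := by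
  simp [bndF, evalF]; ring

theorem evalF_gain (B : List ER.Con) (u : ℕ → ℝ) :
    evalF (gain B) u = u (2 * ((svars B).length + gapK B.length) + 1) * u 0 := by
  simp [gain, evalF]

theorem inR_conF {P : ℕ} {r : ℕ → ℕ} {c : ER.Con} (h : ∀ i ∈ c.vars, r i < P) :
    InR (2 * P + 1) (conF r c) := by
  intro m hm
  cases c with
  | one i =>
    have := h i (by simp [ER.Con.vars])
    simp only [conF, List.mem_cons, List.not_mem_nil, or_false] at hm
    rcases hm with rfl | rfl <;> simp <;> omega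
  | add i j k =>
    have h1 := h i (by simp [ER.Con.vars])
    have h2 := h j (by simp [ER.Con.vars])
    have h3 := h k (by simp [ER.Con.vars])
    simp only [conF, List.mem_cons, List.not_mem_nil, or_false] at hm
    rcases hm with rfl | rfl | rfl <;> simp <;> omega
  | mul i j k =>
    have h1 := h i (by simp [ER.Con.vars])
    have h2 := h j (by simp [ER.Con.vars])
    have h3 := h k (by simp [ER.Con.vars])
    simp only [conF, List.mem_cons, List.not_mem_nil, or_false] at hm
    rcases hm with rfl | rfl <;> simp <;> omega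

theorem mem_chain {K : ℕ} {c : ER.Con} :
    c ∈ chain K ↔ c = ER.Con.one 0 ∨ ∃ j < K, c = ER.Con.mul j j (j + 1) := by
  simp only [chain, List.mem_cons, List.mem_map, List.mem_range]
  constructor
  · rintro (h | ⟨j, hj, rfl⟩)
    · exact Or.inl h
    · exact Or.inr ⟨j, hj, rfl⟩
  · rintro (h | ⟨j, hj, rfl⟩)
    · exact Or.inl h
    · exact Or.inr ⟨j, hj, rfl⟩

theorem mem_forms {B : List ER.Con} {e : Form} : e ∈ forms B ↔
    (∃ c ∈ B, e = conF (fun i => (svars B).idxOf i) c) ∨
    (∃ c ∈ chain (gapK B.length), e = conF (fun j => (svars B).length + j) c) ∨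
    (∃ p < (svars B).length + gapK B.length + 1, e = bndF p) := by
  simp only [forms, List.mem_append, List.mem_map, List.mem_range, or_assoc, eq_comm]

theorem inR_forms (B : List ER.Con) : ∀ e ∈ forms B, InR (dimF B) e := by
  intro e he
  rcases mem_forms.1 he with ⟨c, hc, rfl⟩ | ⟨c, hc, rfl⟩ | ⟨p, hp, rfl⟩
  · refine inR_conF fun i hi => ?_
    have := List.idxOf_lt_length_iff.2 (mem_svars hc hi)
    omega
  · refine inR_conF fun i hi => ?_
    rcases mem_chain.1 hc with rfl | ⟨j, hj, rfl⟩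
    · simp [ER.Con.vars] at hi; omega
    · simp [ER.Con.vars] at hi; omega
  · intro m hm
    simp only [bndF, List.mem_cons, List.not_mem_nil, or_false] at hm
    unfold dimF
    rcases hm with rfl | rfl | rfl <;> simp <;> omega

theorem inR_gain (B : List ER.Con) : ∀ e ∈ [gain B], InR (dimF B) e := by
  intro e he m hm
  simp only [List.mem_cons, List.not_mem_nil, or_false] at he
  subst he
  simp only [gain, List.mem_cons, List.not_mem_nil, or_false] at hm
  subst hm
  unfold dimF
  simp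

theorem err_congr {c : ER.Con} {v v' : ℕ → ℝ} (h : ∀ i ∈ c.vars, v i = v' i) :
    c.err v = c.err v' := by
  cases c <;> simp [ER.Con.vars] at h <;> simp [ER.Con.err, h]

/-- A small solution gives a common zero of the forms with nonzero gain. -/
theorem exists_zero {B : List ER.Con} {w : ℕ → ℝ} (hw : ∀ i, |w i| ≤ 1 / 8)
    (h : ∀ c ∈ B, c.HoldsC (1 / 8) w) :
    ∃ u : ℕ → ℝ, u 0 = 1 ∧ evalF (gain B) u ≠ 0 ∧ ∀ e ∈ forms B, evalF e u = 0 := by
  set n := (svars B).length with hn
  let val : ℕ → ℝ := fun p => if p < n then w ((svars B).getD p 0) else (1 / 8) ^ 2 ^ (p - n)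
  have hval : ∀ p, |val p| ≤ 1 / 8 := by
    intro p
    simp only [val]
    split_ifs
    · exact hw _
    · rw [abs_of_nonneg (by positivity)]
      exact pow_le_of_le_one (by norm_num) (by norm_num) (by positivity)
  let u : ℕ → ℝ := fun i => if i = 0 then 1 else if i % 2 = 1 then val (i / 2)
    else Real.sqrt (1 / 2 - val (i / 2 - 1) ^ 2)
  have h0 : u 0 = 1 := by simp [u]
  have h1 : ∀ p, u (2 * p + 1) = val p := by
    intro p
    have e1 : (2 * p + 1) % 2 = 1 := by omega
    have e2 : (2 * p + 1) / 2 = p := by omega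
    simp only [u, e1, e2]
    simp
  have h2 : ∀ p, u (2 * p + 2) = Real.sqrt (1 / 2 - val p ^ 2) := by
    intro p
    have e1 : (2 * p + 2) % 2 = 0 := by omega
    have e2 : (2 * p + 2) / 2 - 1 = p := by omega
    simp only [u, e1, e2]
    simp
  have h3 : ∀ j, val (n + j) = (1 / 8) ^ 2 ^ j := by
    intro j
    simp [val]
  refine ⟨u, h0, ?_, fun e he => ?_⟩
  · rw [evalF_gain, h0, h1, h3]
    positivity
  · rcases mem_forms.1 he with ⟨c, hc, rfl⟩ | ⟨c, hc, rfl⟩ | ⟨p, hp, rfl⟩
    · rw [evalF_conF _ _ h0, err_congr (v' := w), ER.Con.err_eq_zero]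
      · exact h c hc
      · intro i hi
        have hm := mem_svars hc hi
        have hlt := List.idxOf_lt_length_iff.2 hm
        rw [h1]
        simp only [val]
        rw [if_pos hlt, List.getD_eq_getElem _ _ hlt, List.getElem_idxOf]
    · rw [evalF_conF _ _ h0]
      rcases mem_chain.1 hc with rfl | ⟨j, hj, rfl⟩
      · simp only [ER.Con.err, h1, ← hn, h3]; norm_num
      · simp only [ER.Con.err, h1, ← hn, h3]
        rw [pow_succ 2 j, pow_mul]; ring
    · rw [evalF_bndF, h0, h1, h2, Real.sq_sqrt]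
      · ring
      · have := abs_le.1 (hval p)
        nlinarith

theorem normalise {L : List Form} {u : ℕ → ℝ} (h : u 0 ≠ 0) :
    ∃ v : ℕ → ℝ, v 0 = 1 ∧ ∀ l : Form, evalF l u = u 0 ^ 2 * evalF l v := by
  refine ⟨fun i => (u 0)⁻¹ * u i, inv_mul_cancel₀ h, fun l => ?_⟩
  have := L
  rw [evalF_smul]
  field_simp

theorem sat_iff_zero (S : List ER.Con) :
    Sat S ↔ ∃ u, ssq (dimF (bsys S)) u ≠ 0 ∧ ∀ e ∈ forms (bsys S), evalF e u = 0 := by
  constructor
  · intro h
    obtain ⟨w, hw, hc⟩ := bsys_of_sat h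
    obtain ⟨u, h0, -, h2⟩ := exists_zero hw hc
    refine ⟨u, ne_of_gt ?_, h2⟩
    refine Finset.sum_pos' (fun _ _ => sq_nonneg _) ⟨0, by simp [dimF], by rw [h0]; norm_num⟩
  · rintro ⟨u, hu, h⟩
    have h0 : u 0 ≠ 0 := by
      intro h0
      apply hu
      refine Finset.sum_eq_zero fun i hi => ?_
      have hi' := Finset.mem_range.1 hi
      unfold dimF at hi'
      rcases Nat.eq_zero_or_pos i with rfl | hpos
      · rw [h0]; ring
      · have hb := h (bndF ((i - 1) / 2)) (mem_forms.2 (Or.inr (Or.inr ⟨_, by omega, rfl⟩)))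
        rw [evalF_bndF, h0] at hb
        have a1 := sq_nonneg (u (2 * ((i - 1) / 2) + 1))
        have a2 := sq_nonneg (u (2 * ((i - 1) / 2) + 2))
        rcases (by omega : i = 2 * ((i - 1) / 2) + 1 ∨ i = 2 * ((i - 1) / 2) + 2) with e | e
        · rw [e]; linarith
        · rw [e]; linarith
    obtain ⟨v, hv0, hv⟩ := normalise (L := []) h0
    refine sat_of_bsys (w := fun i => v (2 * (svars (bsys S)).idxOf i + 1)) fun c hc => ?_
    rw [← ER.Con.err_eq_zero, ← evalF_conF _ _ hv0]
    have := h _ (mem_forms.2 (Or.inl ⟨c, hc, rfl⟩))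
    rw [hv] at this
    exact (mul_eq_zero.1 this).resolve_left (pow_ne_zero 2 h0)

theorem chain_small {K : ℕ} {t : ℕ → ℝ} {δ : ℝ} (hδ0 : 0 ≤ δ) (hδ : δ ≤ 1 / 8)
    (h0 : |8 * t 0 - 1| ≤ δ) (h1 : ∀ j < K, |t j * t j - t (j + 1)| ≤ δ) :
    ∀ j ≤ K, |t j| ≤ (1 / 2) * (1 / 2) ^ 2 ^ j + 2 * δ := by
  intro j
  induction j with
  | zero =>
    intro _
    have := abs_le.1 h0
    rw [abs_le]
    constructor <;> norm_num <;> linarith [this.1, this.2]
  | succ j ih =>
    intro hj
    have a1 := ih (by omega)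
    have a2 := abs_le.1 (h1 j (by omega))
    set ε : ℝ := (1 / 2) ^ 2 ^ j with hε
    have a3 : ((1 : ℝ) / 2) ^ 2 ^ (j + 1) = ε ^ 2 := by rw [pow_succ 2 j, pow_mul]
    have a4 : t j * t j ≤ (1 / 2 * ε + 2 * δ) ^ 2 := by
      rw [← sq, ← sq_abs]
      exact pow_le_pow_left₀ (abs_nonneg _) a1 2
    have a5 : (1 / 2 * ε + 2 * δ) ^ 2 ≤ 1 / 2 * ε ^ 2 + δ := by
      nlinarith [sq_nonneg (1 / 2 * ε - 2 * δ)]
    have a6 := mul_self_nonneg (t j)
    have a7 := sq_nonneg ε
    rw [a3, abs_le]
    constructor <;> linarith [a2.1, a2.2]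

theorem sat_iff_gain (S : List ER.Con) :
    Sat S ↔ ∃ u, 72 * sos (forms (bsys S)) u < sos [gain (bsys S)] u := by
  have hg : ∀ u, sos [gain (bsys S)] u = evalF (gain (bsys S)) u ^ 2 := fun u => by simp [sos]
  constructor
  · intro h
    obtain ⟨w, hw, hc⟩ := bsys_of_sat h
    obtain ⟨u, -, h1, h2⟩ := exists_zero hw hc
    refine ⟨u, ?_⟩
    rw [sos_eq_zero_iff.2 h2, hg, mul_zero]
    positivity
  · rintro ⟨u, hu⟩
    set B := bsys S with hB
    set n := (svars B).length with hn
    set K := gapK B.length with hK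
    rw [hg] at hu
    have h0 : u 0 ≠ 0 := by
      intro h0
      rw [evalF_gain, h0] at hu
      have := sos_nonneg (forms B) u
      nlinarith
    obtain ⟨v, hv0, hv⟩ := normalise (L := []) h0
    set g := v (2 * (n + K) + 1) with hgdef
    have key : ∀ e ∈ forms B, |evalF e v| ≤ |g| / 8 := by
      intro e he
      have a1 := sq_le_sos he u
      rw [hv] at a1
      rw [hv, evalF_gain, hv0] at hu
      have a2 : 0 < (u 0 ^ 2) ^ 2 := by positivity
      have a3 : (u 0 ^ 2) ^ 2 * (72 * evalF e v ^ 2) ≤ (u 0 ^ 2) ^ 2 * g ^ 2 := by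
        have : (u 0 ^ 2 * (g * 1)) ^ 2 = (u 0 ^ 2) ^ 2 * g ^ 2 := by ring
        nlinarith
      have a4 := le_of_mul_le_mul_left a3 a2
      apply abs_le_of_sq_le_sq _ (by positivity)
      rw [div_pow, sq_abs]
      nlinarith [sq_nonneg (evalF e v)]
    have hbnd : ∀ p < n + K + 1, 2 * v (2 * p + 1) ^ 2 ≤ 1 + |g| / 8 := by
      intro p hp
      have a1 := key _ (mem_forms.2 (Or.inr (Or.inr ⟨p, hp, rfl⟩)))
      rw [evalF_bndF, hv0] at a1
      have a2 := (abs_le.1 a1).2
      nlinarith [sq_nonneg (v (2 * p + 2))]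
    have hg1 : |g| ≤ 1 := by
      have a1 := hbnd (n + K) (by omega)
      rw [← hgdef, ← sq_abs] at a1
      nlinarith [abs_nonneg g]
    have hch := chain_small (K := K) (t := fun j => v (2 * (n + j) + 1)) (δ := |g| / 8)
      (by positivity) (by linarith) (by
        have := key _ (mem_forms.2 (Or.inr (Or.inl ⟨_, mem_chain.2 (Or.inl rfl), rfl⟩)))
        rwa [evalF_conF _ _ hv0] at this) (fun j hj => by
        have := key _ (mem_forms.2 (Or.inr (Or.inl ⟨_, mem_chain.2 (Or.inr ⟨j, hj, rfl⟩), rfl⟩)))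
        rwa [evalF_conF _ _ hv0] at this) K le_rfl
    have hsmall : |g| / 8 * 2 ^ 2 ^ K ≤ 1 := by
      change |g| ≤ _ at hch
      have a1 : |g| / 8 ≤ (1 / 2) ^ 2 ^ K := by
        have : (0 : ℝ) ≤ (1 / 2) ^ 2 ^ K := by positivity
        linarith
      calc |g| / 8 * 2 ^ 2 ^ K ≤ (1 / 2) ^ 2 ^ K * 2 ^ 2 ^ K := by gcongr
        _ = 1 := by rw [← mul_pow]; norm_num
    obtain ⟨w', hw'⟩ := holds_of_approx (S := B) (w := fun i => v (2 * (svars B).idxOf i + 1))
      (fun i hi => by
        have hlt := List.idxOf_lt_length_iff.2 hi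
        have a1 := hbnd ((svars B).idxOf i) (by omega)
        apply abs_le_of_sq_le_sq _ (by norm_num)
        linarith)
      (fun c hc => by
        have := key _ (mem_forms.2 (Or.inl ⟨c, hc, rfl⟩))
        rw [evalF_conF _ _ hv0] at this
        refine le_trans ?_ hsmall
        gcongr)
    exact sat_of_bsys hw'

/-- The reduction for the spectral norm. -/
def redNorm (S : List ER.Con) : Inst := inst (dimF (bsys S)) (forms (bsys S)) [gain (bsys S)]

/-- The reduction for singular values. -/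
def redSV (S : List ER.Con) : Inst := inst (dimF (bsys S)) (forms (bsys S)) []

theorem sat_iff_exceed (S : List ER.Con) : Sat S ↔ NormExceed (redNorm S) := by
  rw [sat_iff_gain, ← exceed_inst (inR_forms _) (inR_gain _)]
  exact ⟨fun h => ⟨valid_inst _ _ _, h⟩, fun h => h.2⟩

theorem sat_iff_not_bound (S : List ER.Con) : Sat S ↔ ¬ NormBound (redNorm S) := by
  rw [sat_iff_exceed]
  have hv : Valid (redNorm S) := valid_inst _ _ _
  simp [NormExceed, NormBound, hv]

theorem sat_iff_tsv (S : List ER.Con) : Sat S ↔ TSV (redSV S) := by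
  rw [sat_iff_zero, ← sv_inst (inR_forms _)]
  exact ⟨fun h => ⟨valid_inst _ _ _, h⟩, fun h => h.2⟩

end Pool.Agent.H238Z.Tens
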